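import Mathlib

/-!
# Families of lines: definition

`Lin n d 𝓛`: `d` sets of `n + 1` points, two of them meet in exactly one point, every point is on
at most `n + 1` of them.
-/

set_option autoImplicit false

namespace MP44257e

/-- The degree of the point `p` in the family `𝓛`. -/
def dg {v : ℕ} (𝓛 : Finset (Finset (Fin v))) (p : Fin v) : ℕ := (𝓛.filter fun X => p ∈ X).card

/-- `d` lines with `n + 1` points, any two meet exactly once, points of degree at most `n + 1`. -/
def Lin {v : ℕ} (n d : ℕ) (𝓛 : Finset (Finset (Fin v))) : Prop :=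
  𝓛.card = d ∧ (∀ X ∈ 𝓛, X.card = n + 1) ∧
  (∀ X ∈ 𝓛, ∀ Y ∈ 𝓛, X ≠ Y → (X ∩ Y).card = 1) ∧ ∀ p, dg 𝓛 p ≤ n + 1

end MP44257e
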