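import Pool.Agent.H.MP_44257e_co.UC.L0

/-!
# Counting in a family of lines

`sum_dg`: count the pairs `(q, Y)`, `Y ∈ 𝓛`, `q ∈ X ∩ Y`: `Y = X` gives `n + 1`, the other `d - 1`
members give one each. `sum_dg_all`: double counting. `noncol`: the `dg p` lines through `p` meet
`X` in different points (two lines share only `p`), these are the points of `X` that are on a line
with `p`.
-/

set_option autoImplicit false

namespace MP44257e

variable {v n d : ℕ} {𝓛 : Finset (Finset (Fin v))}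

private theorem L1_set (𝓛 : Finset (Finset (Fin v))) (S : Finset (Fin v)) :
    ∑ q ∈ S, dg 𝓛 q = ∑ X ∈ 𝓛, (X ∩ S).card := by
  unfold dg
  simp only [Finset.card_filter]
  rw [Finset.sum_comm]
  refine Finset.sum_congr rfl fun X _ => ?_
  rw [← Finset.card_filter, Finset.filter_mem_eq_inter, Finset.inter_comm]

theorem sum_dg (h : Lin n d 𝓛) {X : Finset (Fin v)} (hX : X ∈ 𝓛) :
    ∑ q ∈ X, dg 𝓛 q = d + n := by
  rw [L1_set, ← Finset.add_sum_erase 𝓛 _ hX, Finset.inter_self, h.2.1 X hX]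
  have h1 : ∑ Y ∈ 𝓛.erase X, (Y ∩ X).card = ∑ Y ∈ 𝓛.erase X, 1 :=
    Finset.sum_congr rfl fun Y hY =>
      h.2.2.1 Y (Finset.mem_of_mem_erase hY) X hX (Finset.ne_of_mem_erase hY)
  rw [h1, Finset.sum_const, smul_eq_mul, mul_one, Finset.card_erase_of_mem hX, h.1]
  have h2 : 0 < 𝓛.card := Finset.card_pos.2 ⟨X, hX⟩
  rw [h.1] at h2
  omega

theorem sum_dg_set (h : Lin n d 𝓛) (S : Finset (Fin v)) :
    ∑ q ∈ S, dg 𝓛 q = ∑ X ∈ 𝓛, (X ∩ S).card := L1_set 𝓛 S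

theorem sum_dg_all (h : Lin n d 𝓛) : ∑ q, dg 𝓛 q = d * (n + 1) := by
  rw [L1_set, Finset.sum_const_nat (m := n + 1), h.1]
  intro X hX
  rw [Finset.inter_univ, h.2.1 X hX]

/-- A line not through `p` has exactly `dg p` points that are on a line with `p`. -/
theorem noncol (h : Lin n d 𝓛) {X : Finset (Fin v)} (hX : X ∈ 𝓛) {p : Fin v} (hp : p ∉ X) :
    (X.filter fun q => ∃ Y ∈ 𝓛, p ∈ Y ∧ q ∈ Y).card = dg 𝓛 p := by
  have h1 : (X.filter fun q => ∃ Y ∈ 𝓛, p ∈ Y ∧ q ∈ Y) =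
      (𝓛.filter fun Y => p ∈ Y).biUnion fun Y => X ∩ Y := by
    ext q
    simp only [Finset.mem_filter, Finset.mem_biUnion, Finset.mem_inter]
    constructor
    · rintro ⟨hq, Y, hY, hpY, hqY⟩
      exact ⟨Y, ⟨hY, hpY⟩, hq, hqY⟩
    · rintro ⟨Y, ⟨hY, hpY⟩, hq, hqY⟩
      exact ⟨hq, Y, hY, hpY, hqY⟩
  have h2 : ∀ Y ∈ 𝓛.filter (fun Y => p ∈ Y), ∀ Z ∈ 𝓛.filter (fun Y => p ∈ Y), Y ≠ Z →
      Disjoint (X ∩ Y) (X ∩ Z) := by
    intro Y hY Z hZ hne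
    rw [Finset.mem_filter] at hY hZ
    rw [Finset.disjoint_left]
    intro q hq hq'
    rw [Finset.mem_inter] at hq hq'
    obtain ⟨t, ht⟩ := Finset.card_eq_one.1 (h.2.2.1 Y hY.1 Z hZ.1 hne)
    have h3 : p ∈ Y ∩ Z := Finset.mem_inter.2 ⟨hY.2, hZ.2⟩
    have h4 : q ∈ Y ∩ Z := Finset.mem_inter.2 ⟨hq.2, hq'.2⟩
    rw [ht, Finset.mem_singleton] at h3 h4
    rw [h4, ← h3] at hq
    exact hp hq.1
  rw [h1, Finset.card_biUnion h2, Finset.sum_const_nat (m := 1), mul_one]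
  · rfl
  · intro Y hY
    rw [Finset.mem_filter] at hY
    refine h.2.2.1 X hX Y hY.1 ?_
    rintro rfl
    exact hp hY.2

end MP44257e
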