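import Pool.Agent.H.MP_44257e_co.UC.L7

/-!
# 36 lines without a point of degree 7

By `sum_dg` (`36 + 6 = 42 = 7 * 6`) all points of positive degree have degree 6, so there are
`36 * 7 / 6 = 42` of them (`sum_PS`). Take such a point `p` and let `N` be the set of the points of
positive degree, different from `p`, on no line with `p`: `N.card = 42 - 1 - 36 = 5`. By `noncol`
(`dg p = 6`) every line not through `p` has exactly one point in `N`, a line through `p` has none.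
The new line is `insert o (insert p N)` (7 points, `o` is on no line), it meets every line exactly
once, it is not in `𝓛`, the degrees of `p` and the points of `N` become 7, that of `o` becomes 1.
The points of positive degree are the old ones and `o`: 43. (Compare the finished file
`UC/L4.lean`.)
-/

set_option autoImplicit false

namespace MP44257e

private theorem L10_pos {v : ℕ} {𝓛 : Finset (Finset (Fin v))} {q : Fin v} :
    0 < dg 𝓛 q ↔ ∃ Y ∈ 𝓛, q ∈ Y := by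
  unfold dg
  rw [Finset.card_pos]
  constructor
  · rintro ⟨Y, hY⟩
    rw [Finset.mem_filter] at hY
    exact ⟨Y, hY.1, hY.2⟩
  · rintro ⟨Y, hY, hq⟩
    exact ⟨Y, Finset.mem_filter.2 ⟨hY, hq⟩⟩

/-- all points of the lines have degree 6 -/
private theorem L10_six {v : ℕ} {𝓛 : Finset (Finset (Fin v))} (h : Lin 6 36 𝓛)
    (h7 : ∀ p, dg 𝓛 p ≠ 7) {X : Finset (Fin v)} (hX : X ∈ 𝓛) {q : Fin v} (hq : q ∈ X) :
    dg 𝓛 q = 6 := by
  have hle : ∀ r, dg 𝓛 r ≤ 6 := fun r => by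
    have h1 := h.2.2.2 r
    have h2 := h7 r
    omega
  have h1 := sum_dg h hX
  have h2 : ∑ q ∈ X, dg 𝓛 q + ∑ q ∈ X, (6 - dg 𝓛 q) = 42 := by
    rw [← Finset.sum_add_distrib]
    have h3 : ∀ q ∈ X, dg 𝓛 q + (6 - dg 𝓛 q) = 6 := by
      intro q _
      have := hle q
      omega
    rw [Finset.sum_congr rfl h3, Finset.sum_const, h.2.1 X hX]
    rfl
  have h3 := Finset.single_le_sum (f := fun q => 6 - dg 𝓛 q) (fun _ _ => Nat.zero_le _) hq
  have h4 := hle q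
  have h5 : 6 - dg 𝓛 q ≤ ∑ q ∈ X, (6 - dg 𝓛 q) := h3
  omega

private theorem L10_six' {v : ℕ} {𝓛 : Finset (Finset (Fin v))} (h : Lin 6 36 𝓛)
    (h7 : ∀ p, dg 𝓛 p ≠ 7) {q : Fin v} (hq : 0 < dg 𝓛 q) : dg 𝓛 q = 6 := by
  obtain ⟨Y, hY, hqY⟩ := L10_pos.1 hq
  exact L10_six h h7 hY hqY

/-- the points that are on no line with `p` -/
private def L10_N {v : ℕ} (𝓛 : Finset (Finset (Fin v))) (p : Fin v) : Finset (Fin v) :=
  Finset.univ.filter fun q => 0 < dg 𝓛 q ∧ ¬ ∃ Y ∈ 𝓛, p ∈ Y ∧ q ∈ Y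

private theorem L10_mem {v : ℕ} {𝓛 : Finset (Finset (Fin v))} {p q : Fin v} :
    q ∈ L10_N 𝓛 p ↔ 0 < dg 𝓛 q ∧ ¬ ∃ Y ∈ 𝓛, p ∈ Y ∧ q ∈ Y := by
  simp [L10_N]

private theorem L10_in {v : ℕ} {𝓛 : Finset (Finset (Fin v))} {p : Fin v}
    {X : Finset (Fin v)} (hX : X ∈ 𝓛) (hp : p ∈ X) : X ∩ L10_N 𝓛 p = ∅ := by
  rw [Finset.eq_empty_iff_forall_notMem]
  intro q hq
  rw [Finset.mem_inter, L10_mem] at hq
  exact hq.2.2 ⟨X, hX, hp, hq.1⟩

private theorem L10_out {v : ℕ} {𝓛 : Finset (Finset (Fin v))} (h : Lin 6 36 𝓛) {p : Fin v}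
    (h6 : dg 𝓛 p = 6) {X : Finset (Fin v)} (hX : X ∈ 𝓛) (hp : p ∉ X) :
    (X ∩ L10_N 𝓛 p).card = 1 := by
  have h1 := noncol h hX hp
  have h2 := Finset.card_filter_add_card_filter_not (s := X)
    (fun q => ∃ Y ∈ 𝓛, p ∈ Y ∧ q ∈ Y)
  have h3 : X ∩ L10_N 𝓛 p = X.filter fun q => ¬ ∃ Y ∈ 𝓛, p ∈ Y ∧ q ∈ Y := by
    ext q
    rw [Finset.mem_inter, L10_mem, Finset.mem_filter]
    constructor
    · rintro ⟨h4, h5⟩
      exact ⟨h4, h5.2⟩
    · rintro ⟨h4, h5⟩
      exact ⟨h4, L10_pos.2 ⟨X, hX, h4⟩, h5⟩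
  rw [h3]
  rw [h1, h6, h.2.1 X hX] at h2
  omega

private theorem L10_card {v : ℕ} {𝓛 : Finset (Finset (Fin v))} (h : Lin 6 36 𝓛)
    (h7 : ∀ p, dg 𝓛 p ≠ 7) {p : Fin v} (h6 : dg 𝓛 p = 6) : (L10_N 𝓛 p).card = 5 := by
  have h0 : ∑ q ∈ L10_N 𝓛 p, dg 𝓛 q = 30 := by
    rw [sum_dg_set h]
    have h1 : ∀ X ∈ 𝓛, (X ∩ L10_N 𝓛 p).card = if p ∉ X then 1 else 0 := by
      intro X hX
      by_cases hp : p ∈ X
      · rw [L10_in hX hp]
        simp [hp]
      · rw [L10_out h h6 hX hp]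
        simp [hp]
    rw [Finset.sum_congr rfl h1, ← Finset.card_filter]
    have h2 := Finset.card_filter_add_card_filter_not (s := 𝓛) (fun X => p ∈ X)
    have h3 : (𝓛.filter fun X => p ∈ X).card = 6 := h6
    rw [h3, h.1] at h2
    omega
  have h1 : ∑ q ∈ L10_N 𝓛 p, dg 𝓛 q = (L10_N 𝓛 p).card * 6 := by
    rw [Finset.sum_congr rfl (fun q hq => L10_six' h h7 (L10_mem.1 hq).1), Finset.sum_const,
      smul_eq_mul]
  omega

private theorem L10_PS {v : ℕ} {𝓛 : Finset (Finset (Fin v))} (h : Lin 6 36 𝓛)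
    (h7 : ∀ p, dg 𝓛 p ≠ 7) : (PS 𝓛).card = 42 := by
  have h1 := sum_PS h
  have h2 : ∑ q ∈ PS 𝓛, dg 𝓛 q = (PS 𝓛).card * 6 := by
    have h3 : ∀ q ∈ PS 𝓛, dg 𝓛 q = 6 := fun q hq =>
      L10_six' h h7 ((Finset.mem_filter.1 hq).2 : 1 ≤ dg 𝓛 q)
    rw [Finset.sum_congr rfl h3, Finset.sum_const, smul_eq_mul]
  omega

theorem lin36 {v : ℕ} {𝓛 : Finset (Finset (Fin v))} (h : Lin 6 36 𝓛)
    (h7 : ∀ p, dg 𝓛 p ≠ 7) {o : Fin v} (ho : dg 𝓛 o = 0) :
    ∃ 𝓛' : Finset (Finset (Fin v)), Lin 6 37 𝓛' ∧ (PS 𝓛').card = 43 := by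
  obtain ⟨X₀, hX₀⟩ := Finset.card_pos.1 (by rw [h.1]; norm_num : 0 < 𝓛.card)
  obtain ⟨p, hpX₀⟩ := Finset.card_pos.1 (by rw [h.2.1 X₀ hX₀]; norm_num : 0 < X₀.card)
  have h6 : dg 𝓛 p = 6 := L10_six h h7 hX₀ hpX₀
  have hpN : p ∉ L10_N 𝓛 p := by
    intro h0
    exact (L10_mem.1 h0).2 ⟨X₀, hX₀, hpX₀, hpX₀⟩
  have hoN : o ∉ insert p (L10_N 𝓛 p) := by
    intro h0
    rcases Finset.mem_insert.1 h0 with rfl | h0
    · omega
    · have := (L10_mem.1 h0).1
      omega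
  have hoX : ∀ X ∈ 𝓛, o ∉ X := by
    intro X hX h0
    have := L10_pos.2 ⟨X, hX, h0⟩
    omega
  obtain ⟨Z, hZdef⟩ : ∃ Z, Z = insert o (insert p (L10_N 𝓛 p)) := ⟨_, rfl⟩
  have hZ7 : Z.card = 7 := by
    rw [hZdef, Finset.card_insert_of_notMem hoN, Finset.card_insert_of_notMem hpN,
      L10_card h h7 h6]
  have hint : ∀ X ∈ 𝓛, (X ∩ Z).card = 1 := by
    intro X hX
    rw [hZdef, Finset.inter_insert_of_notMem (hoX X hX)]
    by_cases hp : p ∈ X
    · rw [Finset.inter_insert_of_mem hp, L10_in hX hp]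
      simp
    · rw [Finset.inter_insert_of_notMem hp]
      exact L10_out h h6 hX hp
  have hZ : Z ∉ 𝓛 := by
    intro h0
    refine hoX Z h0 ?_
    rw [hZdef]
    exact Finset.mem_insert_self _ _
  have hdg : ∀ q, dg (insert Z 𝓛) q = dg 𝓛 q + if q ∈ Z then 1 else 0 := by
    intro q
    unfold dg
    rw [Finset.filter_insert]
    split_ifs with hq
    · rw [Finset.card_insert_of_notMem]
      intro h0
      exact hZ (Finset.mem_filter.1 h0).1
    · rfl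
  have hZdg : ∀ q ∈ Z, q = o ∨ dg 𝓛 q = 6 := by
    intro q hq
    rw [hZdef] at hq
    rcases Finset.mem_insert.1 hq with rfl | hq
    · exact Or.inl rfl
    · rcases Finset.mem_insert.1 hq with rfl | hq
      · exact Or.inr h6
      · exact Or.inr (L10_six' h h7 (L10_mem.1 hq).1)
  refine ⟨insert Z 𝓛, ⟨?_, ?_, ?_, ?_⟩, ?_⟩
  · rw [Finset.card_insert_of_notMem hZ, h.1]
  · intro X hX
    rcases Finset.mem_insert.1 hX with rfl | hX
    · exact hZ7
    · exact h.2.1 X hX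
  · intro X hX Y hY hne
    rcases Finset.mem_insert.1 hX with hX1 | hX1
    · rcases Finset.mem_insert.1 hY with hY1 | hY1
      · exact absurd (hX1.trans hY1.symm) hne
      · rw [Finset.inter_comm, hX1]
        exact hint Y hY1
    · rcases Finset.mem_insert.1 hY with hY1 | hY1
      · rw [hY1]
        exact hint X hX1
      · exact h.2.2.1 X hX1 Y hY1 hne
  · intro q
    rw [hdg]
    have h8 := h.2.2.2 q
    have h9 := h7 q
    split_ifs with hq <;> omega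
  · have hPS : PS (insert Z 𝓛) = insert o (PS 𝓛) := by
      ext q
      unfold PS
      rw [Finset.mem_filter, Finset.mem_insert, Finset.mem_filter, hdg]
      constructor
      · rintro ⟨-, h1⟩
        by_cases hq : q ∈ Z
        · rcases hZdg q hq with h2 | h2
          · exact Or.inl h2
          · exact Or.inr ⟨Finset.mem_univ _, by omega⟩
        · rw [if_neg hq] at h1
          exact Or.inr ⟨Finset.mem_univ _, by omega⟩
      · rintro (rfl | ⟨-, h1⟩)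
        · refine ⟨Finset.mem_univ _, ?_⟩
          rw [if_pos (by rw [hZdef]; exact Finset.mem_insert_self _ _)]
          omega
        · exact ⟨Finset.mem_univ _, by omega⟩
    have hoP : o ∉ PS 𝓛 := by
      unfold PS
      rw [Finset.mem_filter]
      rintro ⟨-, h1⟩
      omega
    rw [hPS, Finset.card_insert_of_notMem hoP, L10_PS h h7]

end MP44257e
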