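import Pool.Agent.H.MP_44257e_co.UC.L1

/-!
# Completion of 42 lines of order 6

By `sum_dg` (`42 + 6 = 48 = 7 * 7 - 1`) every line has exactly one point of degree 6 and six points
of degree 7. Let `D` be the set of the points of degree 6. `6 * D.card = 42` (`sum_dg_set` for
`S = D`: every line meets `D` in exactly one point), so `D.card = 7`. The family `insert D 𝓛`: `D` is
not in `𝓛` (it has seven points of degree 6), meets every line exactly once, and the degrees of its
points become 7.
-/

set_option autoImplicit false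

namespace MP44257e

/-- in a sum of natural numbers equal to one exactly one term is not zero -/
private theorem L3_one {α : Type} [DecidableEq α] {X : Finset α} {e : α → ℕ}
    (h : ∑ q ∈ X, e q = 1) : ∃ q₀ ∈ X, e q₀ = 1 ∧ ∀ q ∈ X, q ≠ q₀ → e q = 0 := by
  have h1 : ∃ q₀ ∈ X, e q₀ ≠ 0 := by
    by_contra hcon
    push Not at hcon
    rw [Finset.sum_eq_zero hcon] at h
    exact absurd h (by norm_num)
  obtain ⟨q₀, hq₀, hne⟩ := h1
  have h2 := Finset.add_sum_erase X e hq₀
  have h3 : ∑ q ∈ X.erase q₀, e q = 0 := by omega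
  refine ⟨q₀, hq₀, by omega, fun q hq hqne => ?_⟩
  exact Finset.sum_eq_zero_iff.1 h3 q (Finset.mem_erase.2 ⟨hqne, hq⟩)

theorem lin42 {v : ℕ} {𝓛 : Finset (Finset (Fin v))} (h : Lin 6 42 𝓛) :
    ∃ 𝓛' : Finset (Finset (Fin v)), Lin 6 43 𝓛' := by
  classical
  obtain ⟨D, hD⟩ : ∃ D : Finset (Fin v), D = Finset.univ.filter fun p => dg 𝓛 p = 6 := ⟨_, rfl⟩
  have hmD : ∀ p, p ∈ D ↔ dg 𝓛 p = 6 := by
    intro p
    rw [hD]
    simp
  have hle : ∀ p, dg 𝓛 p ≤ 7 := h.2.2.2
  -- every line meets `D` in exactly one point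
  have hone : ∀ X ∈ 𝓛, (X ∩ D).card = 1 := by
    intro X hX
    have h1 : ∑ q ∈ X, dg 𝓛 q = 48 := sum_dg h hX
    have h2 : ∑ q ∈ X, (dg 𝓛 q + (7 - dg 𝓛 q)) = 49 := by
      rw [Finset.sum_congr rfl (g := fun _ => 7) fun q _ => by have := hle q; omega,
        Finset.sum_const, h.2.1 X hX, smul_eq_mul]
    rw [Finset.sum_add_distrib, h1] at h2
    have h3 : ∑ q ∈ X, (7 - dg 𝓛 q) = 1 := by omega
    obtain ⟨q₀, hq₀, he, h4⟩ := L3_one h3
    have h5 : X ∩ D = {q₀} := by
      ext q
      rw [Finset.mem_inter, Finset.mem_singleton, hmD]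
      constructor
      · rintro ⟨h6, h7⟩
        by_contra hne
        have := h4 q h6 hne
        omega
      · intro h6
        rw [h6]
        refine ⟨hq₀, ?_⟩
        omega
    rw [h5, Finset.card_singleton]
  have hDc : D.card = 7 := by
    have h1 := sum_dg_set h D
    rw [Finset.sum_congr rfl hone, Finset.sum_const, h.1,
      Finset.sum_congr rfl (g := fun _ => 6) (fun q hq => (hmD q).1 hq), Finset.sum_const,
      smul_eq_mul, smul_eq_mul] at h1
    omega
  have hnot : D ∉ 𝓛 := by
    intro hmem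
    have h1 := hone D hmem
    rw [Finset.inter_self, hDc] at h1
    exact absurd h1 (by norm_num)
  refine ⟨insert D 𝓛, ?_, ?_, ?_, ?_⟩
  · rw [Finset.card_insert_of_notMem hnot, h.1]
  · intro X hX
    rcases Finset.mem_insert.1 hX with h1 | h1
    · rw [h1, hDc]
    · exact h.2.1 X h1
  · intro X hX Y hY hne
    rcases Finset.mem_insert.1 hX with h1 | h1
    · rcases Finset.mem_insert.1 hY with h2 | h2
      · exact absurd (h1.trans h2.symm) hne
      · rw [h1, Finset.inter_comm]
        exact hone Y h2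
    · rcases Finset.mem_insert.1 hY with h2 | h2
      · rw [h2]
        exact hone X h1
      · exact h.2.2.1 X h1 Y h2 hne
  · intro p
    unfold dg
    rw [Finset.filter_insert]
    split_ifs with hp
    · rw [Finset.card_insert_of_notMem fun h1 => hnot (Finset.mem_filter.1 h1).1]
      have h1 := (hmD p).1 hp
      unfold dg at h1
      omega
    · exact h.2.2.2 p

end MP44257e
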