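import Pool.Agent.H.MP_44257e_co.UC.L1

/-!
# Completion of 41 lines of order 6

By `sum_dg` (`41 + 6 = 47 = 7 * 7 - 2`) a line has either one point of degree 5 and six of degree 7
or two points of degree 6 and five of degree 7. There is a point `p` of degree 6: else every line
has exactly one point of degree 5, and `5 ∣ 41` by `sum_dg_set` with the set of the points of
degree 5. Let `N` be the set of the points `q ≠ p` of positive degree that are on no line with `p`.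
By `noncol` (`dg p = 6`, seven points) every line not through `p` has exactly one point in `N`, a
line through `p` has none. For `q ∈ N`: a line `X` through `p` does not contain `q`, it has `dg q`
points on a line with `q` (`noncol`), but `p ∈ X` is not such a point, so `dg q ≤ 6`; so `dg q` is
5 or 6. `sum_dg_set` for `S = N`: `∑_{q ∈ N} dg q = 41 - 6 = 35`. So either `N` has 6 points (one
of degree 5, five of degree 6), or it has 7 points, all of degree 5. In the second case the 35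
lines not through `p` have a point of degree 5, so no point of degree 6; a line through `p` has
another point `p'` of degree 6 (`p` has degree 6, the sum is 47), a second line through `p'` is not
through `p` (two lines share one point) and has a point of degree 6 and one of degree 5:
impossible. So `N.card = 6`; the new line is `insert p N`, 7 points, every line meets it exactly
once (lines through `p` in `p` only), it is not in `𝓛` (its points are not on a line with `p`),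
and the degrees of its points become at most 7.
-/

set_option autoImplicit false

namespace MP44257e

private theorem L4_pos {v : ℕ} {𝓛 : Finset (Finset (Fin v))} {q : Fin v} :
    0 < dg 𝓛 q ↔ ∃ Y ∈ 𝓛, q ∈ Y := by
  unfold dg
  rw [Finset.card_pos]
  constructor
  · rintro ⟨Y, hY⟩
    rw [Finset.mem_filter] at hY
    exact ⟨Y, hY.1, hY.2⟩
  · rintro ⟨Y, hY, hq⟩
    exact ⟨Y, Finset.mem_filter.2 ⟨hY, hq⟩⟩

/-- the deficiencies on a line -/
private theorem L4_def {v : ℕ} {𝓛 : Finset (Finset (Fin v))} (h : Lin 6 41 𝓛)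
    {X : Finset (Fin v)} (hX : X ∈ 𝓛) : ∑ q ∈ X, (7 - dg 𝓛 q) = 2 := by
  have h1 := sum_dg h hX
  have h2 : ∑ q ∈ X, dg 𝓛 q + ∑ q ∈ X, (7 - dg 𝓛 q) = 49 := by
    rw [← Finset.sum_add_distrib]
    have h3 : ∀ q ∈ X, dg 𝓛 q + (7 - dg 𝓛 q) = 7 := by
      intro q _
      have := h.2.2.2 q
      omega
    rw [Finset.sum_congr rfl h3, Finset.sum_const, h.2.1 X hX]
    rfl
  omega

private theorem L4_five {v : ℕ} {𝓛 : Finset (Finset (Fin v))} (h : Lin 6 41 𝓛)
    {X : Finset (Fin v)} (hX : X ∈ 𝓛) {q : Fin v} (hq : q ∈ X) : 5 ≤ dg 𝓛 q := by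
  have h1 := L4_def h hX
  have h2 := Finset.single_le_sum (f := fun q => 7 - dg 𝓛 q) (fun _ _ => Nat.zero_le _) hq
  omega

private theorem L4_count {v : ℕ} {𝓛 : Finset (Finset (Fin v))} (h : Lin 6 41 𝓛)
    {X : Finset (Fin v)} (hX : X ∈ 𝓛) :
    (X.filter fun q => dg 𝓛 q = 6).card + 2 * (X.filter fun q => dg 𝓛 q = 5).card = 2 := by
  rw [Finset.card_filter, Finset.card_filter, Finset.mul_sum, ← Finset.sum_add_distrib]
  refine Eq.trans (Finset.sum_congr rfl ?_) (L4_def h hX)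
  intro q hq
  have h1 := L4_five h hX hq
  have h2 := h.2.2.2 q
  split_ifs <;> omega

private theorem L4_six {v : ℕ} {𝓛 : Finset (Finset (Fin v))} (h : Lin 6 41 𝓛) :
    ∃ p, dg 𝓛 p = 6 := by
  by_contra hne
  push Not at hne
  have h1 := sum_dg_set h (Finset.univ.filter fun q => dg 𝓛 q = 5)
  have h3 : ∀ X ∈ 𝓛, (X ∩ Finset.univ.filter fun q => dg 𝓛 q = 5).card = 1 := by
    intro X hX
    have h4 := L4_count h hX
    have h5 : (X.filter fun q => dg 𝓛 q = 6) = ∅ :=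
      Finset.filter_eq_empty_iff.2 (fun q _ => hne q)
    rw [h5, Finset.card_empty] at h4
    have h6 : X ∩ (Finset.univ.filter fun q => dg 𝓛 q = 5) = X.filter fun q => dg 𝓛 q = 5 := by
      ext q
      simp
    rw [h6]
    omega
  have h7 : ∑ q ∈ Finset.univ.filter (fun q => dg 𝓛 q = 5), dg 𝓛 q
      = (Finset.univ.filter fun q => dg 𝓛 q = 5).card * 5 := by
    rw [Finset.sum_congr rfl (fun q hq => (Finset.mem_filter.1 hq).2), Finset.sum_const,
      smul_eq_mul]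
  rw [Finset.sum_congr rfl h3, Finset.sum_const, h.1, smul_eq_mul] at h1
  omega

/-- the points that are on no line with `p` -/
private def L4_N {v : ℕ} (𝓛 : Finset (Finset (Fin v))) (p : Fin v) : Finset (Fin v) :=
  Finset.univ.filter fun q => 0 < dg 𝓛 q ∧ ¬ ∃ Y ∈ 𝓛, p ∈ Y ∧ q ∈ Y

private theorem L4_mem {v : ℕ} {𝓛 : Finset (Finset (Fin v))} {p q : Fin v} :
    q ∈ L4_N 𝓛 p ↔ 0 < dg 𝓛 q ∧ ¬ ∃ Y ∈ 𝓛, p ∈ Y ∧ q ∈ Y := by
  simp [L4_N]

private theorem L4_in {v : ℕ} {𝓛 : Finset (Finset (Fin v))} {p : Fin v}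
    {X : Finset (Fin v)} (hX : X ∈ 𝓛) (hp : p ∈ X) : X ∩ L4_N 𝓛 p = ∅ := by
  rw [Finset.eq_empty_iff_forall_notMem]
  intro q hq
  rw [Finset.mem_inter, L4_mem] at hq
  exact hq.2.2 ⟨X, hX, hp, hq.1⟩

private theorem L4_out {v : ℕ} {𝓛 : Finset (Finset (Fin v))} (h : Lin 6 41 𝓛) {p : Fin v}
    (h6 : dg 𝓛 p = 6) {X : Finset (Fin v)} (hX : X ∈ 𝓛) (hp : p ∉ X) :
    (X ∩ L4_N 𝓛 p).card = 1 := by
  have h1 := noncol h hX hp
  have h2 := Finset.card_filter_add_card_filter_not (s := X)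
    (fun q => ∃ Y ∈ 𝓛, p ∈ Y ∧ q ∈ Y)
  have h3 : X ∩ L4_N 𝓛 p = X.filter fun q => ¬ ∃ Y ∈ 𝓛, p ∈ Y ∧ q ∈ Y := by
    ext q
    rw [Finset.mem_inter, L4_mem, Finset.mem_filter]
    constructor
    · rintro ⟨h4, h5⟩
      exact ⟨h4, h5.2⟩
    · rintro ⟨h4, h5⟩
      exact ⟨h4, L4_pos.2 ⟨X, hX, h4⟩, h5⟩
  rw [h3]
  rw [h1, h6, h.2.1 X hX] at h2
  omega

private theorem L4_le {v : ℕ} {𝓛 : Finset (Finset (Fin v))} (h : Lin 6 41 𝓛) {p : Fin v}
    (h6 : dg 𝓛 p = 6) {q : Fin v} (hq : q ∈ L4_N 𝓛 p) : dg 𝓛 q = 5 ∨ dg 𝓛 q = 6 := by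
  rw [L4_mem] at hq
  obtain ⟨X, hX, hp⟩ := L4_pos.1 (by omega : 0 < dg 𝓛 p)
  obtain ⟨Z, hZ, hqZ⟩ := L4_pos.1 hq.1
  have h5 := L4_five h hZ hqZ
  have hqX : q ∉ X := fun h0 => hq.2 ⟨X, hX, hp, h0⟩
  have h1 := noncol h hX hqX
  have h2 : (X.filter fun r => ∃ Y ∈ 𝓛, q ∈ Y ∧ r ∈ Y) ⊆ X.erase p := by
    intro r hr
    rw [Finset.mem_filter] at hr
    rw [Finset.mem_erase]
    refine ⟨?_, hr.1⟩
    rintro rfl
    obtain ⟨Y, hY, h3, h4⟩ := hr.2
    exact hq.2 ⟨Y, hY, h4, h3⟩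
  have h3 := Finset.card_le_card h2
  rw [h1, Finset.card_erase_of_mem hp, h.2.1 X hX] at h3
  omega

private theorem L4_sum {v : ℕ} {𝓛 : Finset (Finset (Fin v))} (h : Lin 6 41 𝓛) {p : Fin v}
    (h6 : dg 𝓛 p = 6) : ∑ q ∈ L4_N 𝓛 p, dg 𝓛 q = 35 := by
  rw [sum_dg_set h]
  have h1 : ∀ X ∈ 𝓛, (X ∩ L4_N 𝓛 p).card = if p ∉ X then 1 else 0 := by
    intro X hX
    by_cases hp : p ∈ X
    · rw [L4_in hX hp]
      simp [hp]
    · rw [L4_out h h6 hX hp]
      simp [hp]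
  rw [Finset.sum_congr rfl h1, ← Finset.card_filter]
  have h2 := Finset.card_filter_add_card_filter_not (s := 𝓛) (fun X => p ∈ X)
  have h3 : (𝓛.filter fun X => p ∈ X).card = 6 := h6
  rw [h3, h.1] at h2
  omega

private theorem L4_card {v : ℕ} {𝓛 : Finset (Finset (Fin v))} (h : Lin 6 41 𝓛) {p : Fin v}
    (h6 : dg 𝓛 p = 6) : (L4_N 𝓛 p).card = 6 := by
  have h1 := L4_sum h h6
  have h2 := Finset.card_filter_add_card_filter_not (s := L4_N 𝓛 p) (fun q => dg 𝓛 q = 5)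
  have h3 : ∑ q ∈ L4_N 𝓛 p, dg 𝓛 q
      = ((L4_N 𝓛 p).filter fun q => dg 𝓛 q = 5).card * 5
        + ((L4_N 𝓛 p).filter fun q => ¬ dg 𝓛 q = 5).card * 6 := by
    rw [← Finset.sum_filter_add_sum_filter_not (L4_N 𝓛 p) (fun q => dg 𝓛 q = 5)]
    congr 1
    · rw [Finset.sum_congr rfl (fun q hq => (Finset.mem_filter.1 hq).2), Finset.sum_const,
        smul_eq_mul]
    · have h4 : ∀ q ∈ (L4_N 𝓛 p).filter (fun q => ¬ dg 𝓛 q = 5), dg 𝓛 q = 6 := by
        intro q hq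
        rw [Finset.mem_filter] at hq
        exact (L4_le h h6 hq.1).resolve_left hq.2
      rw [Finset.sum_congr rfl h4, Finset.sum_const, smul_eq_mul]
  rw [h3] at h1
  by_contra hne
  have h5 : ((L4_N 𝓛 p).filter fun q => ¬ dg 𝓛 q = 5).card = 0 := by omega
  have h7 : ∀ q ∈ L4_N 𝓛 p, dg 𝓛 q = 5 := by
    intro q hq
    by_contra h8
    have h9 : q ∈ (L4_N 𝓛 p).filter fun q => ¬ dg 𝓛 q = 5 := Finset.mem_filter.2 ⟨hq, h8⟩
    rw [Finset.card_eq_zero.1 h5] at h9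
    simp at h9
  obtain ⟨X, hX, hp⟩ := L4_pos.1 (by omega : 0 < dg 𝓛 p)
  have h8 := L4_count h hX
  have h9 : p ∈ X.filter fun q => dg 𝓛 q = 6 := Finset.mem_filter.2 ⟨hp, h6⟩
  have h10 : 0 < (X.filter fun q => dg 𝓛 q = 6).card := Finset.card_pos.2 ⟨p, h9⟩
  have h11 : 1 < (X.filter fun q => dg 𝓛 q = 6).card := by omega
  obtain ⟨r, hr, hrp⟩ := Finset.exists_mem_ne h11 p
  rw [Finset.mem_filter] at hr
  have h12 : 1 < (𝓛.filter fun Y => r ∈ Y).card := by
    have : (𝓛.filter fun Y => r ∈ Y).card = 6 := hr.2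
    omega
  obtain ⟨Y, hY, hYX⟩ := Finset.exists_mem_ne h12 X
  rw [Finset.mem_filter] at hY
  have hpY : p ∉ Y := by
    intro h0
    have h13 := h.2.2.1 X hX Y hY.1 (Ne.symm hYX)
    have h14 : ({p, r} : Finset (Fin v)) ⊆ X ∩ Y := by
      intro a ha
      simp only [Finset.mem_insert, Finset.mem_singleton] at ha
      rcases ha with rfl | rfl
      · exact Finset.mem_inter.2 ⟨hp, h0⟩
      · exact Finset.mem_inter.2 ⟨hr.1, hY.2⟩
    have h15 := Finset.card_le_card h14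
    rw [Finset.card_pair (Ne.symm hrp)] at h15
    omega
  have h16 := L4_out h h6 hY.1 hpY
  obtain ⟨s, hs⟩ := Finset.card_pos.1 (by omega : 0 < (Y ∩ L4_N 𝓛 p).card)
  rw [Finset.mem_inter] at hs
  have h17 := L4_count h hY.1
  have h18 : 0 < (Y.filter fun q => dg 𝓛 q = 6).card :=
    Finset.card_pos.2 ⟨r, Finset.mem_filter.2 ⟨hY.2, hr.2⟩⟩
  have h19 : 0 < (Y.filter fun q => dg 𝓛 q = 5).card :=
    Finset.card_pos.2 ⟨s, Finset.mem_filter.2 ⟨hs.1, h7 s hs.2⟩⟩
  omega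

theorem lin41 {v : ℕ} {𝓛 : Finset (Finset (Fin v))} (h : Lin 6 41 𝓛) :
    ∃ 𝓛' : Finset (Finset (Fin v)), Lin 6 42 𝓛' := by
  obtain ⟨p, h6⟩ := L4_six h
  have hpos : ∃ Y ∈ 𝓛, p ∈ Y := L4_pos.1 (by omega : 0 < dg 𝓛 p)
  have hpN : p ∉ L4_N 𝓛 p := by
    intro h0
    obtain ⟨Y, hY, hp⟩ := hpos
    exact (L4_mem.1 h0).2 ⟨Y, hY, hp, hp⟩
  have hZ7 : (insert p (L4_N 𝓛 p)).card = 7 := by
    rw [Finset.card_insert_of_notMem hpN, L4_card h h6]
  have hint : ∀ X ∈ 𝓛, (X ∩ insert p (L4_N 𝓛 p)).card = 1 := by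
    intro X hX
    by_cases hp : p ∈ X
    · rw [Finset.inter_insert_of_mem hp, L4_in hX hp]
      simp
    · rw [Finset.inter_insert_of_notMem hp]
      exact L4_out h h6 hX hp
  have hZ : insert p (L4_N 𝓛 p) ∉ 𝓛 := by
    intro h0
    obtain ⟨q, hq⟩ := Finset.card_pos.1 (by rw [L4_card h h6]; omega : 0 < (L4_N 𝓛 p).card)
    exact (L4_mem.1 hq).2 ⟨_, h0, Finset.mem_insert_self _ _, Finset.mem_insert_of_mem hq⟩
  refine ⟨insert (insert p (L4_N 𝓛 p)) 𝓛, ?_, ?_, ?_, ?_⟩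
  · rw [Finset.card_insert_of_notMem hZ, h.1]
  · intro X hX
    rcases Finset.mem_insert.1 hX with rfl | hX
    · exact hZ7
    · exact h.2.1 X hX
  · intro X hX Y hY hne
    rcases Finset.mem_insert.1 hX with rfl | hX
    · rcases Finset.mem_insert.1 hY with rfl | hY
      · exact absurd rfl hne
      · rw [Finset.inter_comm]
        exact hint Y hY
    · rcases Finset.mem_insert.1 hY with rfl | hY
      · exact hint X hX
      · exact h.2.2.1 X hX Y hY hne
  · intro q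
    unfold dg
    rw [Finset.filter_insert]
    have h7 := h.2.2.2 q
    split_ifs with hq
    · have h8 : dg 𝓛 q ≤ 6 := by
        rcases Finset.mem_insert.1 hq with rfl | hq
        · omega
        · rcases L4_le h h6 hq with h9 | h9 <;> omega
      have h10 := Finset.card_insert_le (insert p (L4_N 𝓛 p)) (𝓛.filter fun X => q ∈ X)
      have h11 : (𝓛.filter fun X => q ∈ X).card ≤ 6 := h8
      omega
    · exact h7

end MP44257e
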