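import Pool.Agent.H.MP_44257e_co.UC.L2
import Pool.Agent.H.MP_44257e_co.UC.L3
import Pool.Agent.H.MP_44257e_co.UC.L4
import Pool.Agent.H.MP_44257e_co.UB.B3

/-!
# Non-sunflower pairs for `k = 9` have degree at most 40

`lin_of_thr`: the sets `X \ {x, y}`, `X ∈ thr A x y` (injective image). `dg` at `z`: at most
`(thr3 A x y z).card ≤ n + 1` (`thr3_le`, `z ≠ x, y`), and 0 at `x`, `y`.

`thr_le_40`: `thr_le` gives at most 43; 41, 42, 43 are impossible by `lin41`, `lin42`, `no_lin43`.
-/

set_option autoImplicit false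

namespace MP44257e

theorem lin_of_thr {v n : ℕ} {A : Finset (Finset (Fin v))} {x y : Fin v}
    (hA : IsFam [0, 1, 3] (n + 3) A) (hxy : x ≠ y) (h : ¬ Sun A x y) :
    Lin n (thr A x y).card ((thr A x y).image fun X => (X.erase x).erase y) := by
  have hins : ∀ X ∈ thr A x y, insert x (insert y ((X.erase x).erase y)) = X := by
    intro X hX
    obtain ⟨h1, h2, h3⟩ := mem_thr.1 hX
    rw [Finset.insert_erase (Finset.mem_erase.2 ⟨hxy.symm, h3⟩), Finset.insert_erase h2]
  have hinj : Set.InjOn (fun X : Finset (Fin v) => (X.erase x).erase y) (thr A x y) := by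
    intro X hX Y hY hXY
    have h1 := hins X hX
    have h2 := hins Y hY
    have h3 : (X.erase x).erase y = (Y.erase x).erase y := hXY
    rw [h3, h2] at h1
    exact h1.symm
  have hcard : ∀ Z : Finset (Fin v), x ∈ Z → y ∈ Z → ((Z.erase x).erase y).card = Z.card - 2 := by
    intro Z h2 h3
    rw [Finset.card_erase_of_mem (Finset.mem_erase.2 ⟨hxy.symm, h3⟩), Finset.card_erase_of_mem h2]
    omega
  refine ⟨Finset.card_image_of_injOn hinj, ?_, ?_, ?_⟩
  · intro Z hZ
    obtain ⟨X, hX, rfl⟩ := Finset.mem_image.1 hZ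
    obtain ⟨h1, h2, h3⟩ := mem_thr.1 hX
    have h4 := hA.1 X h1
    have h5 := hcard X h2 h3
    show ((X.erase x).erase y).card = n + 1
    omega
  · intro Z hZ W hW hZW
    obtain ⟨X, hX, rfl⟩ := Finset.mem_image.1 hZ
    obtain ⟨Y, hY, rfl⟩ := Finset.mem_image.1 hW
    obtain ⟨h1, h2, h3⟩ := mem_thr.1 hX
    obtain ⟨k1, k2, k3⟩ := mem_thr.1 hY
    have hne : X ≠ Y := fun h => hZW (by rw [h])
    have h4 := inter_three hA h1 k1 hne hxy h2 h3 k2 k3
    have h5 : (X.erase x).erase y ∩ (Y.erase x).erase y = ((X ∩ Y).erase x).erase y := by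
      ext a
      simp only [Finset.mem_inter, Finset.mem_erase]
      tauto
    have h6 := hcard (X ∩ Y) (Finset.mem_inter.2 ⟨h2, k2⟩) (Finset.mem_inter.2 ⟨h3, k3⟩)
    show ((X.erase x).erase y ∩ (Y.erase x).erase y).card = 1
    rw [h5]
    omega
  · intro p
    unfold dg
    by_cases hp : p = x ∨ p = y
    · have h0 : (((thr A x y).image fun X => (X.erase x).erase y).filter fun X => p ∈ X) = ∅ := by
        refine Finset.filter_eq_empty_iff.2 ?_
        intro Z hZ hpZ
        obtain ⟨X, hX, rfl⟩ := Finset.mem_image.1 hZ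
        have h1 := Finset.mem_erase.1 hpZ
        have h2 := Finset.mem_erase.1 h1.2
        rcases hp with hp | hp
        · exact h2.1 hp
        · exact h1.1 hp
      rw [h0]
      simp
    · rw [not_or] at hp
      have h1 : (((thr A x y).image fun X => (X.erase x).erase y).filter fun X => p ∈ X) ⊆
          (thr3 A x y p).image fun X => (X.erase x).erase y := by
        intro Z hZ
        obtain ⟨hZ1, hZ2⟩ := Finset.mem_filter.1 hZ
        obtain ⟨X, hX, rfl⟩ := Finset.mem_image.1 hZ1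
        obtain ⟨k1, k2, k3⟩ := mem_thr.1 hX
        refine Finset.mem_image.2 ⟨X, mem_thr3.2 ⟨k1, k2, k3, ?_⟩, rfl⟩
        exact (Finset.mem_erase.1 (Finset.mem_erase.1 hZ2).2).2
      refine (Finset.card_le_card h1).trans (Finset.card_image_le.trans ?_)
      refine thr3_le hA hxy hp.1 hp.2 ?_
      by_contra hcon
      refine h ⟨p, hp.1, hp.2, fun B hB => ?_⟩
      by_contra hpB
      exact hcon ⟨B, hB, hpB⟩

theorem thr_le_40 {v : ℕ} {A : Finset (Finset (Fin v))} {x y : Fin v}
    (hA : IsFam [0, 1, 3] 9 A) (hxy : x ≠ y) (h : ¬ Sun A x y) : (thr A x y).card ≤ 40 := by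
  by_contra hc
  have h1 := thr_le (n := 6) hA hxy h
  have h2 := lin_of_thr (n := 6) hA hxy h
  generalize (thr A x y).card = d at hc h1 h2
  have h3 : d = 41 ∨ d = 42 ∨ d = 43 := by omega
  rcases h3 with rfl | rfl | rfl
  · obtain ⟨L1, hL1⟩ := lin41 h2
    obtain ⟨L2, hL2⟩ := lin42 hL1
    exact no_lin43 hL2
  · obtain ⟨L2, hL2⟩ := lin42 h2
    exact no_lin43 hL2
  · exact no_lin43 h2

end MP44257e
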