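import Pool.Agent.H.MP_44257e_co.UC.L7

/-!
# Adding a line

`dg p = 6`, 43 points. Let `N` be the set of the points of positive degree, different from `p`, on
no line with `p`. The points on a line with `p` are `p` and `6 * 6` others, so `N.card = 6`. By
`noncol` every line not through `p` has exactly one point in `N`, a line through `p` has none. For
`q ∈ N`, `dg q ≤ 6`: a line `X` through `p` does not contain `q`; it has `dg q` points on a line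
with `q` (`noncol`), and `p` is not such a point. The new family is `insert (insert p N) 𝓛`: the
new line has 7 points, meets every line exactly once, is not in `𝓛`, and the degrees of its points
become at most 7. The set of the points of positive degree does not change. (Compare the finished
file `UC/L4.lean`.)
-/

set_option autoImplicit false

namespace MP44257e

private theorem L8_pos {v : ℕ} {𝓛 : Finset (Finset (Fin v))} {q : Fin v} :
    0 < dg 𝓛 q ↔ ∃ Y ∈ 𝓛, q ∈ Y := by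
  unfold dg
  rw [Finset.card_pos]
  constructor
  · rintro ⟨Y, hY⟩
    rw [Finset.mem_filter] at hY
    exact ⟨Y, hY.1, hY.2⟩
  · rintro ⟨Y, hY, hq⟩
    exact ⟨Y, Finset.mem_filter.2 ⟨hY, hq⟩⟩

private theorem L8_disj {v d : ℕ} {𝓛 : Finset (Finset (Fin v))} (h : Lin 6 d 𝓛) (p : Fin v) :
    ∀ Y ∈ 𝓛.filter (fun Y => p ∈ Y), ∀ Z ∈ 𝓛.filter (fun Y => p ∈ Y), Y ≠ Z →
      Disjoint (Y.erase p) (Z.erase p) := by
  intro Y hY Z hZ hne
  rw [Finset.mem_filter] at hY hZ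
  rw [Finset.disjoint_left]
  intro q hq hq'
  rw [Finset.mem_erase] at hq hq'
  obtain ⟨t, ht⟩ := Finset.card_eq_one.1 (h.2.2.1 Y hY.1 Z hZ.1 hne)
  have h3 : p ∈ Y ∩ Z := Finset.mem_inter.2 ⟨hY.2, hZ.2⟩
  have h4 : q ∈ Y ∩ Z := Finset.mem_inter.2 ⟨hq.2, hq'.2⟩
  rw [ht, Finset.mem_singleton] at h3 h4
  exact hq.1 (h4.trans h3.symm)

/-- the other points on the lines through `p` -/
private def L8_C {v : ℕ} (𝓛 : Finset (Finset (Fin v))) (p : Fin v) : Finset (Fin v) :=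
  (𝓛.filter fun Y => p ∈ Y).biUnion fun Y => Y.erase p

private theorem L8_mem_C {v : ℕ} {𝓛 : Finset (Finset (Fin v))} {p q : Fin v} :
    q ∈ L8_C 𝓛 p ↔ q ≠ p ∧ ∃ Y ∈ 𝓛, p ∈ Y ∧ q ∈ Y := by
  unfold L8_C
  simp only [Finset.mem_biUnion, Finset.mem_filter, Finset.mem_erase]
  constructor
  · rintro ⟨Y, ⟨h1, h2⟩, h3, h4⟩
    exact ⟨h3, Y, h1, h2, h4⟩
  · rintro ⟨h3, Y, h1, h2, h4⟩
    exact ⟨Y, ⟨h1, h2⟩, h3, h4⟩

private theorem L8_card_C {v d : ℕ} {𝓛 : Finset (Finset (Fin v))} (h : Lin 6 d 𝓛) {p : Fin v}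
    (h6 : dg 𝓛 p = 6) : (L8_C 𝓛 p).card = 36 := by
  unfold L8_C
  rw [Finset.card_biUnion (L8_disj h p), Finset.sum_const_nat (m := 6)]
  · have h1 : (𝓛.filter fun Y => p ∈ Y).card = 6 := h6
    rw [h1]
  · intro Y hY
    rw [Finset.mem_filter] at hY
    rw [Finset.card_erase_of_mem hY.2, h.2.1 Y hY.1]

/-- the points that are on no line with `p` -/
private def L8_N {v : ℕ} (𝓛 : Finset (Finset (Fin v))) (p : Fin v) : Finset (Fin v) :=
  Finset.univ.filter fun q => 0 < dg 𝓛 q ∧ ¬ ∃ Y ∈ 𝓛, p ∈ Y ∧ q ∈ Y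

private theorem L8_mem {v : ℕ} {𝓛 : Finset (Finset (Fin v))} {p q : Fin v} :
    q ∈ L8_N 𝓛 p ↔ 0 < dg 𝓛 q ∧ ¬ ∃ Y ∈ 𝓛, p ∈ Y ∧ q ∈ Y := by
  simp [L8_N]

private theorem L8_card {v d : ℕ} {𝓛 : Finset (Finset (Fin v))} (h : Lin 6 d 𝓛)
    (hP : (PS 𝓛).card = 43) {p : Fin v} (h6 : dg 𝓛 p = 6) : (L8_N 𝓛 p).card = 6 := by
  have e4 : (Finset.univ.filter fun q => 0 < dg 𝓛 q).card = 43 := hP
  have e5 := Finset.card_filter_add_card_filter_not
    (s := Finset.univ.filter fun q => 0 < dg 𝓛 q) (fun q => ∃ Y ∈ 𝓛, p ∈ Y ∧ q ∈ Y)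
  have e6 : ((Finset.univ.filter fun q => 0 < dg 𝓛 q).filter
      fun q => ¬ ∃ Y ∈ 𝓛, p ∈ Y ∧ q ∈ Y) = L8_N 𝓛 p := by
    rw [Finset.filter_filter]
    rfl
  have e7 : ((Finset.univ.filter fun q => 0 < dg 𝓛 q).filter
      fun q => ∃ Y ∈ 𝓛, p ∈ Y ∧ q ∈ Y) = insert p (L8_C 𝓛 p) := by
    ext q
    rw [Finset.mem_filter, Finset.mem_filter, Finset.mem_insert, L8_mem_C]
    constructor
    · rintro ⟨_, h2⟩
      by_cases hqp : q = p
      · exact Or.inl hqp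
      · exact Or.inr ⟨hqp, h2⟩
    · rintro (rfl | ⟨_, Y, h1, h2, h3⟩)
      · obtain ⟨Y, hY, hq⟩ := L8_pos.1 (by omega : 0 < dg 𝓛 q)
        exact ⟨⟨Finset.mem_univ _, by omega⟩, Y, hY, hq, hq⟩
      · exact ⟨⟨Finset.mem_univ _, L8_pos.2 ⟨Y, h1, h3⟩⟩, Y, h1, h2, h3⟩
  have hpC : p ∉ L8_C 𝓛 p := fun h0 => (L8_mem_C.1 h0).1 rfl
  rw [e6, e7, e4, Finset.card_insert_of_notMem hpC, L8_card_C h h6] at e5
  omega

private theorem L8_in {v : ℕ} {𝓛 : Finset (Finset (Fin v))} {p : Fin v}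
    {X : Finset (Fin v)} (hX : X ∈ 𝓛) (hp : p ∈ X) : X ∩ L8_N 𝓛 p = ∅ := by
  rw [Finset.eq_empty_iff_forall_notMem]
  intro q hq
  rw [Finset.mem_inter, L8_mem] at hq
  exact hq.2.2 ⟨X, hX, hp, hq.1⟩

private theorem L8_out {v d : ℕ} {𝓛 : Finset (Finset (Fin v))} (h : Lin 6 d 𝓛) {p : Fin v}
    (h6 : dg 𝓛 p = 6) {X : Finset (Fin v)} (hX : X ∈ 𝓛) (hp : p ∉ X) :
    (X ∩ L8_N 𝓛 p).card = 1 := by
  have h1 := noncol h hX hp
  have h2 := Finset.card_filter_add_card_filter_not (s := X)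
    (fun q => ∃ Y ∈ 𝓛, p ∈ Y ∧ q ∈ Y)
  have h3 : X ∩ L8_N 𝓛 p = X.filter fun q => ¬ ∃ Y ∈ 𝓛, p ∈ Y ∧ q ∈ Y := by
    ext q
    rw [Finset.mem_inter, L8_mem, Finset.mem_filter]
    constructor
    · rintro ⟨h4, h5⟩
      exact ⟨h4, h5.2⟩
    · rintro ⟨h4, h5⟩
      exact ⟨h4, L8_pos.2 ⟨X, hX, h4⟩, h5⟩
  rw [h3]
  rw [h1, h6, h.2.1 X hX] at h2
  omega

private theorem L8_le {v d : ℕ} {𝓛 : Finset (Finset (Fin v))} (h : Lin 6 d 𝓛) {p : Fin v}
    (h6 : dg 𝓛 p = 6) {q : Fin v} (hq : q ∈ L8_N 𝓛 p) : dg 𝓛 q ≤ 6 := by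
  rw [L8_mem] at hq
  obtain ⟨X, hX, hp⟩ := L8_pos.1 (by omega : 0 < dg 𝓛 p)
  have hqX : q ∉ X := fun h0 => hq.2 ⟨X, hX, hp, h0⟩
  have h1 := noncol h hX hqX
  have h2 : (X.filter fun r => ∃ Y ∈ 𝓛, q ∈ Y ∧ r ∈ Y) ⊆ X.erase p := by
    intro r hr
    rw [Finset.mem_filter] at hr
    rw [Finset.mem_erase]
    refine ⟨?_, hr.1⟩
    rintro rfl
    obtain ⟨Y, hY, h3, h4⟩ := hr.2
    exact hq.2 ⟨Y, hY, h4, h3⟩
  have h3 := Finset.card_le_card h2
  rw [h1, Finset.card_erase_of_mem hp, h.2.1 X hX] at h3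
  omega

theorem add_line {v d : ℕ} {𝓛 : Finset (Finset (Fin v))} (h : Lin 6 d 𝓛)
    (hP : (PS 𝓛).card = 43) {p : Fin v} (hp : dg 𝓛 p = 6) :
    ∃ 𝓛' : Finset (Finset (Fin v)), Lin 6 (d + 1) 𝓛' ∧ (PS 𝓛').card = 43 := by
  have hpos : ∃ Y ∈ 𝓛, p ∈ Y := L8_pos.1 (by omega : 0 < dg 𝓛 p)
  have hpN : p ∉ L8_N 𝓛 p := by
    intro h0
    obtain ⟨Y, hY, hp⟩ := hpos
    exact (L8_mem.1 h0).2 ⟨Y, hY, hp, hp⟩
  have hc := L8_card h hP hp
  have hZ7 : (insert p (L8_N 𝓛 p)).card = 7 := by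
    rw [Finset.card_insert_of_notMem hpN, hc]
  have hint : ∀ X ∈ 𝓛, (X ∩ insert p (L8_N 𝓛 p)).card = 1 := by
    intro X hX
    by_cases hpX : p ∈ X
    · rw [Finset.inter_insert_of_mem hpX, L8_in hX hpX]
      simp
    · rw [Finset.inter_insert_of_notMem hpX]
      exact L8_out h hp hX hpX
  have hZ : insert p (L8_N 𝓛 p) ∉ 𝓛 := by
    intro h0
    obtain ⟨q, hq⟩ := Finset.card_pos.1 (by rw [hc]; omega : 0 < (L8_N 𝓛 p).card)
    exact (L8_mem.1 hq).2 ⟨_, h0, Finset.mem_insert_self _ _, Finset.mem_insert_of_mem hq⟩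
  refine ⟨insert (insert p (L8_N 𝓛 p)) 𝓛, ⟨?_, ?_, ?_, ?_⟩, ?_⟩
  · rw [Finset.card_insert_of_notMem hZ, h.1]
  · intro X hX
    rcases Finset.mem_insert.1 hX with rfl | hX
    · exact hZ7
    · exact h.2.1 X hX
  · intro X hX Y hY hne
    rcases Finset.mem_insert.1 hX with rfl | hX
    · rcases Finset.mem_insert.1 hY with rfl | hY
      · exact absurd rfl hne
      · rw [Finset.inter_comm]
        exact hint Y hY
    · rcases Finset.mem_insert.1 hY with rfl | hY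
      · exact hint X hX
      · exact h.2.2.1 X hX Y hY hne
  · intro q
    unfold dg
    rw [Finset.filter_insert]
    have h7 := h.2.2.2 q
    split_ifs with hq
    · have h8 : dg 𝓛 q ≤ 6 := by
        rcases Finset.mem_insert.1 hq with rfl | hq
        · omega
        · exact L8_le h hp hq
      have h10 := Finset.card_insert_le (insert p (L8_N 𝓛 p)) (𝓛.filter fun X => q ∈ X)
      have h11 : (𝓛.filter fun X => q ∈ X).card ≤ 6 := h8
      omega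
    · exact h7
  · have e : PS (insert (insert p (L8_N 𝓛 p)) 𝓛) = PS 𝓛 := by
      ext q
      unfold PS
      rw [Finset.mem_filter, Finset.mem_filter]
      have h12 : 0 < dg (insert (insert p (L8_N 𝓛 p)) 𝓛) q ↔ 0 < dg 𝓛 q := by
        rw [L8_pos]
        constructor
        · rintro ⟨Y, hY, hq⟩
          rcases Finset.mem_insert.1 hY with rfl | hY
          · rcases Finset.mem_insert.1 hq with rfl | hq
            · omega
            · exact (L8_mem.1 hq).1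
          · exact L8_pos.2 ⟨Y, hY, hq⟩
        · intro h0
          obtain ⟨Y, hY, hq⟩ := L8_pos.1 h0
          exact ⟨Y, Finset.mem_insert_of_mem hY, hq⟩
      exact and_congr_right fun _ => h12
    rw [e, hP]

end MP44257e
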