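import Pool.Agent.H.MP_44257e_co.UC.L7

/-!
# There is a point of degree 6

Put `e q = 7 - dg q` on the 43 points. `∑ e = 301 - 7 d = 7 (43 - d)` and
`∑ e^2 = 49 * 43 - 14 * 7 d + d (d + 6)` (`sum_PS`, `sum_sq_PS`), so with `r = 43 - d`:
`∑ e (e - 1) = r (r - 1)` and `∑ e = 7 r`. If no `e q` is 1, then `e (e - 1) ≥ e` for all points, so
`7 r ≤ r (r - 1)`, `8 ≤ r`; but `1 ≤ r ≤ 7`.
-/

set_option autoImplicit false

namespace MP44257e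

theorem exists_six_point {v d : ℕ} {𝓛 : Finset (Finset (Fin v))} (h : Lin 6 d 𝓛)
    (hd : 36 ≤ d) (hd' : d ≤ 42) (hP : (PS 𝓛).card = 43) : ∃ p, dg 𝓛 p = 6 := by
  by_contra hne
  push Not at hne
  have h1 : ∀ q ∈ PS 𝓛, (0 : ℤ) ≤ 35 - 12 * (dg 𝓛 q : ℤ) + (dg 𝓛 q : ℤ) ^ 2 := by
    intro q _
    have h2 := h.2.2.2 q
    have h3 := hne q
    have h4 : (dg 𝓛 q : ℤ) = 7 ∨ (dg 𝓛 q : ℤ) ≤ 5 := by omega
    rcases h4 with h4 | h4
    · rw [h4]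
      norm_num
    · nlinarith
  have h2 := Finset.sum_nonneg h1
  rw [Finset.sum_add_distrib, Finset.sum_sub_distrib, Finset.sum_const, ← Finset.mul_sum, hP,
    nsmul_eq_mul] at h2
  have h3 : (∑ q ∈ PS 𝓛, (dg 𝓛 q : ℤ)) = d * 7 := by
    exact_mod_cast sum_PS h
  have h4 : (∑ q ∈ PS 𝓛, (dg 𝓛 q : ℤ) ^ 2) = d * (d + 6) := by
    exact_mod_cast sum_sq_PS h
  rw [h3, h4] at h2
  have h5 : (36 : ℤ) ≤ d := by exact_mod_cast hd
  have h6 : (d : ℤ) ≤ 42 := by exact_mod_cast hd'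
  push_cast at h2
  nlinarith

end MP44257e
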