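import Pool.Agent.H.MP_44257e_co.UC.L2
import Pool.Agent.H.MP_44257e_co.UC.L5
import Pool.Agent.H.MP_44257e_co.UC.L8
import Pool.Agent.H.MP_44257e_co.UC.L9
import Pool.Agent.H.MP_44257e_co.UC.L10

/-!
# Non-sunflower pairs for `k = 9` have degree at most 35
-/

set_option autoImplicit false

namespace MP44257e

/-- At least 36 lines of order 6 with 43 points do not exist. -/
theorem no_lin_43pts {v : ℕ} (r : ℕ) : ∀ (𝓛 : Finset (Finset (Fin v))) (d : ℕ), d + r = 43 →
    36 ≤ d → Lin 6 d 𝓛 → (PS 𝓛).card = 43 → False := by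
  induction r with
  | zero =>
    intro 𝓛 d h1 _ h3 _
    have : d = 43 := by omega
    subst this
    exact no_lin43 h3
  | succ r ih =>
    intro 𝓛 d h1 h2 h3 h4
    obtain ⟨p, hp⟩ := exists_six_point h3 h2 (by omega) h4
    obtain ⟨𝓛', h5, h6⟩ := add_line h3 h4 hp
    exact ih 𝓛' (d + 1) (by omega) (by omega) h5 h6

theorem no_lin {v d : ℕ} {𝓛 : Finset (Finset (Fin v))} (h : Lin 6 d 𝓛) (hd : 36 ≤ d)
    (hd' : d ≤ 43) {o : Fin v} (ho : dg 𝓛 o = 0) : False := by
  by_cases hf : ∃ p, dg 𝓛 p = 7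
  · obtain ⟨p, hp⟩ := hf
    have h1 := card_PS h (p := p) hp
    exact no_lin_43pts (43 - d) 𝓛 d (by omega) hd h (by simpa using h1)
  · push Not at hf
    by_cases h36 : d = 36
    · subst h36
      obtain ⟨𝓛', h5, h6⟩ := lin36 h hf ho
      exact no_lin_43pts 6 𝓛' 37 (by omega) (by omega) h5 h6
    · obtain ⟨p, hp⟩ := exists_full_point h (by omega)
      exact hf p hp

theorem thr_le_35 {v : ℕ} {A : Finset (Finset (Fin v))} {x y : Fin v}
    (hA : IsFam [0, 1, 3] 9 A) (hxy : x ≠ y) (h : ¬ Sun A x y) : (thr A x y).card ≤ 35 := by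
  by_contra hc
  push Not at hc
  have h1 := thr_le (n := 6) hA hxy h
  have h2 := lin_of_thr (n := 6) hA hxy h
  have ho : dg ((thr A x y).image fun X => (X.erase x).erase y) x = 0 := by
    unfold dg
    rw [Finset.card_eq_zero, Finset.filter_eq_empty_iff]
    intro X hX
    obtain ⟨X', _, rfl⟩ := Finset.mem_image.1 hX
    simp
  exact no_lin h2 (by omega) (by omega) ho

/-- Properties (i) and (ii) for `T = {0, 1, 3}`, `k = 9`, `v ≥ 214`. -/
theorem thr_bound_9 {v : ℕ} (hv : 214 ≤ v) {A : Finset (Finset (Fin v))} {x y : Fin v}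
    (hA : IsFam [0, 1, 3] 9 A) (hxy : x ≠ y) (h : ¬ Sun A x y) :
    (thr A x y).card * 6 < v - 3 := by
  have := thr_le_35 hA hxy h
  omega

end MP44257e
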