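import Mathlib

/-!
# Six times a sum of `44 = 4 * 11` squares is a sum of squares of linear forms

The matrix `H = [[2,1,1,0],[-1,2,0,1],[-1,0,2,-1],[0,-1,1,2]]` satisfies `Hᵀ H = 6`, i.e.
`(2a+b+c)^2 + (-a+2b+d)^2 + (-a+2c-d)^2 + (-b+c+2d)^2 = 6(a^2+b^2+c^2+d^2)`. Use an equivalence
`ι ≃ Fin 11 × Fin 4` and `H` in every block.
-/

set_option autoImplicit false

namespace MP44257e

theorem exists_six {ι : Type} [Fintype ι] (h : Fintype.card ι = 44) :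
    ∃ Q : (ι → ℚ) →ₗ[ℚ] (ι → ℚ), ∀ x, ∑ i, (Q x i) ^ 2 = 6 * ∑ i, x i ^ 2 := by
  have hc : Fintype.card ι = Fintype.card (Fin 11 × Fin 4) := by
    rw [h, Fintype.card_prod, Fintype.card_fin, Fintype.card_fin]
  obtain ⟨e⟩ : Nonempty (ι ≃ Fin 11 × Fin 4) := ⟨Fintype.equivOfCardEq hc⟩
  let M : Fin 4 → Fin 4 → ℚ := ![![2, 1, 1, 0], ![-1, 2, 0, 1], ![-1, 0, 2, -1], ![0, -1, 1, 2]]
  let Q : (ι → ℚ) →ₗ[ℚ] (ι → ℚ) := LinearMap.pi (fun i =>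
    ∑ l : Fin 4, M (e i).2 l • LinearMap.proj (R := ℚ) (φ := fun _ : ι => ℚ) (e.symm ((e i).1, l)))
  have hQ : ∀ x i, Q x i = ∑ l : Fin 4, M (e i).2 l * x (e.symm ((e i).1, l)) := by
    intro x i
    simp [Q]
  refine ⟨Q, fun x => ?_⟩
  have h1 : ∑ i, (Q x i) ^ 2
      = ∑ p : Fin 11 × Fin 4, (∑ l : Fin 4, M p.2 l * x (e.symm (p.1, l))) ^ 2 := by
    rw [← e.sum_comp]
    exact Finset.sum_congr rfl fun i _ => by rw [hQ]
  have h2 : ∑ i, x i ^ 2 = ∑ p : Fin 11 × Fin 4, x (e.symm p) ^ 2 := by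
    rw [← e.sum_comp]
    exact Finset.sum_congr rfl fun i _ => by rw [e.symm_apply_apply]
  rw [h1, h2, Fintype.sum_prod_type, Fintype.sum_prod_type, Finset.mul_sum]
  refine Finset.sum_congr rfl fun k _ => ?_
  simp only [Fin.sum_univ_four, M]
  simp
  ring

end MP44257e
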