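import Mathlib

/-!
# Elimination

`elim_step`: if for both signs `ε = 1, -1` the map with `Φ i` replaced by `l - ε Φ i` is not
injective, there are `x ≠ 0`, `y ≠ 0` with `Φ x j = 0`, `Φ y j = 0` for `j ≠ i` and `l x = Φ x i`,
`l y = - Φ y i`. By injectivity of `Φ`, `Φ x i ≠ 0` and `Φ y i ≠ 0`. For
`z = (Φ y i) • x - (Φ x i) • y` all `Φ z j = 0`, so `z = 0`, but
`l z = 2 * Φ x i * Φ y i ≠ 0`.

`elim`: induction over the finset `S` of the indices already replaced: there is an injective linear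
`Φ` with `Φ x j = Q x j` for `j ∉ S` and, for `j ∈ S`, a sign `ε` with `Φ x j = l j x - ε * Q x j`
for all `x` (`elim_step`). For `S = univ.erase i0`: `Φ` is surjective (injective endomorphism of a
finite-dimensional space, `LinearMap.injective_iff_surjective`); take `x` with `Φ x = Pi.single i0 1`.
-/

set_option autoImplicit false

namespace MP44257e

variable {ι : Type} [Fintype ι] [DecidableEq ι]

private def R3_map (Φ : (ι → ℚ) →ₗ[ℚ] (ι → ℚ)) (i : ι) (l : (ι → ℚ) →ₗ[ℚ] ℚ) (ε : ℚ) :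
    (ι → ℚ) →ₗ[ℚ] (ι → ℚ) :=
  LinearMap.pi fun j => if j = i then l - ε • ((LinearMap.proj i).comp Φ) else
    (LinearMap.proj j).comp Φ

omit [Fintype ι] in
private theorem R3_ne (Φ : (ι → ℚ) →ₗ[ℚ] (ι → ℚ)) (i : ι) (l : (ι → ℚ) →ₗ[ℚ] ℚ) (ε : ℚ)
    (x : ι → ℚ) (j : ι) (hj : j ≠ i) : R3_map Φ i l ε x j = Φ x j := by
  simp [R3_map, hj]

omit [Fintype ι] in
private theorem R3_self (Φ : (ι → ℚ) →ₗ[ℚ] (ι → ℚ)) (i : ι) (l : (ι → ℚ) →ₗ[ℚ] ℚ) (ε : ℚ)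
    (x : ι → ℚ) : R3_map Φ i l ε x i = l x - ε * Φ x i := by
  simp [R3_map]

omit [Fintype ι] in
private theorem R3_not (Φ : (ι → ℚ) →ₗ[ℚ] (ι → ℚ)) (i : ι) (l : (ι → ℚ) →ₗ[ℚ] ℚ) (ε : ℚ)
    (h : ¬ Function.Injective (R3_map Φ i l ε)) :
    ∃ x, x ≠ 0 ∧ (∀ j, j ≠ i → Φ x j = 0) ∧ l x = ε * Φ x i := by
  rw [injective_iff_map_eq_zero] at h
  push Not at h
  obtain ⟨x, hx, hx0⟩ := h
  refine ⟨x, hx0, fun j hj => ?_, ?_⟩
  · rw [← R3_ne Φ i l ε x j hj, hx]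
    rfl
  · have := congrFun hx i
    rw [R3_self] at this
    have h2 : l x - ε * Φ x i = 0 := this
    linarith

theorem elim_step (Φ : (ι → ℚ) →ₗ[ℚ] (ι → ℚ)) (hΦ : Function.Injective Φ) (i : ι)
    (l : (ι → ℚ) →ₗ[ℚ] ℚ) :
    ∃ (ε : ℚ) (Ψ : (ι → ℚ) →ₗ[ℚ] (ι → ℚ)), (ε = 1 ∨ ε = -1) ∧ Function.Injective Ψ ∧
      (∀ x, ∀ j, j ≠ i → Ψ x j = Φ x j) ∧ ∀ x, Ψ x i = l x - ε * Φ x i := by
  by_cases h1 : Function.Injective (R3_map Φ i l 1)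
  · exact ⟨1, R3_map Φ i l 1, Or.inl rfl, h1, R3_ne Φ i l 1, R3_self Φ i l 1⟩
  by_cases h2 : Function.Injective (R3_map Φ i l (-1))
  · exact ⟨-1, R3_map Φ i l (-1), Or.inr rfl, h2, R3_ne Φ i l (-1), R3_self Φ i l (-1)⟩
  exfalso
  obtain ⟨x, hx0, hx1, hx2⟩ := R3_not Φ i l 1 h1
  obtain ⟨y, hy0, hy1, hy2⟩ := R3_not Φ i l (-1) h2
  have key : ∀ z, z ≠ 0 → (∀ j, j ≠ i → Φ z j = 0) → Φ z i ≠ 0 := by
    intro z hz hz1 hz2
    apply hz
    apply hΦ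
    rw [map_zero]
    funext j
    by_cases hj : j = i
    · rw [hj, hz2]
      rfl
    · rw [hz1 j hj]
      rfl
  have hxi := key x hx0 hx1
  have hyi := key y hy0 hy1
  have hz : (Φ y i) • x - (Φ x i) • y = 0 := by
    apply hΦ
    rw [map_zero, map_sub, map_smul, map_smul]
    funext j
    by_cases hj : j = i
    · subst hj
      simp only [Pi.sub_apply, Pi.smul_apply, smul_eq_mul, Pi.zero_apply]
      ring
    · simp only [Pi.sub_apply, Pi.smul_apply, smul_eq_mul, Pi.zero_apply, hx1 j hj, hy1 j hj]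
      ring
  have hl := congrArg l hz
  rw [map_sub, map_smul, map_smul, map_zero, hx2, hy2, smul_eq_mul, smul_eq_mul] at hl
  have h3 : 2 * (Φ x i * Φ y i) = 0 := by linarith
  have h4 : Φ x i * Φ y i ≠ 0 := mul_ne_zero hxi hyi
  exact h4 (by linarith)

theorem elim (Q : (ι → ℚ) →ₗ[ℚ] (ι → ℚ)) (hQ : Function.Injective Q) (i0 : ι)
    (l : ι → ((ι → ℚ) →ₗ[ℚ] ℚ)) :
    ∃ x, (∀ j, j ≠ i0 → (l j x) ^ 2 = (Q x j) ^ 2) ∧ Q x i0 = 1 := by
  have key : ∀ S : Finset ι, ∃ Φ : (ι → ℚ) →ₗ[ℚ] (ι → ℚ), Function.Injective Φ ∧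
      (∀ x, ∀ j, j ∉ S → Φ x j = Q x j) ∧
      ∀ j ∈ S, ∃ ε : ℚ, (ε = 1 ∨ ε = -1) ∧ ∀ x, Φ x j = l j x - ε * Q x j := by
    intro S
    induction S using Finset.induction_on with
    | empty => exact ⟨Q, hQ, fun _ _ _ => rfl, fun j hj => absurd hj (Finset.notMem_empty j)⟩
    | insert i S hi ih =>
      obtain ⟨Φ, hΦ, h1, h2⟩ := ih
      obtain ⟨ε, Ψ, hε, hΨ, h3, h4⟩ := elim_step Φ hΦ i (l i)
      refine ⟨Ψ, hΨ, fun x j hj => ?_, fun j hj => ?_⟩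
      · rw [Finset.mem_insert, not_or] at hj
        rw [h3 x j hj.1, h1 x j hj.2]
      · rcases Finset.mem_insert.1 hj with h | h
        · subst h
          exact ⟨ε, hε, fun x => by rw [h4, h1 x j hi]⟩
        · obtain ⟨ε', hε', h5⟩ := h2 j h
          have hji : j ≠ i := fun h6 => hi (h6 ▸ h)
          exact ⟨ε', hε', fun x => by rw [h3 x j hji, h5]⟩
  obtain ⟨Φ, hΦ, h1, h2⟩ := key (Finset.univ.erase i0)
  obtain ⟨x, hx⟩ := (LinearMap.injective_iff_surjective.1 hΦ) (Pi.single i0 1)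
  refine ⟨x, fun j hj => ?_, ?_⟩
  · obtain ⟨ε, hε, h3⟩ := h2 j (Finset.mem_erase.2 ⟨hj, Finset.mem_univ j⟩)
    have h4 : Φ x j = 0 := by rw [hx, Pi.single_eq_of_ne hj]
    rw [h3] at h4
    have h5 : l j x = ε * Q x j := by linarith
    rw [h5, mul_pow]
    rcases hε with h | h <;> rw [h] <;> ring
  · rw [← h1 x i0 (Finset.notMem_erase i0 _), hx, Pi.single_eq_same]

end MP44257e
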