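import Pool.Agent.H.MP_44257e_co.UC.R1
import Pool.Agent.H.MP_44257e_co.UC.R2
import Pool.Agent.H.MP_44257e_co.UC.R3

/-!
# The theorem of Bruck and Ryser for order 6, algebraic part

Apply `exists_six` to `Option L` (44 elements); `Q` is injective (`Q x = 0` gives
`6 ∑ x_i^2 = 0`). Let `e : P ≃ L`. Apply `elim` with `i0 = none`,
`l (some j) x = Λ (e.symm j) (fun i => x (some i))` (`l none` anything): `x` with
`(l (some j) x)^2 = (Q x (some j))^2`, `Q x none = 1`. With `y i = x (some i)`: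
`∑_p (Λ p y)^2 + 6 (x none)^2 = 6 ∑ y_i^2 + 6 (x none)^2 + (∑ y_i)^2 = ∑_j (Q x j)^2 + (∑ y_i)^2
= ∑_j (Q x (some j))^2 + 1 + (∑ y_i)^2`, so `6 (x none)^2 = 1 + (∑ y_i)^2`: `no_six`.
-/

set_option autoImplicit false

namespace MP44257e

theorem bruck_ryser_six {P L : Type} [Fintype P] [Fintype L] (hP : Fintype.card P = 43)
    (hL : Fintype.card L = 43) (Λ : P → ((L → ℚ) →ₗ[ℚ] ℚ))
    (h : ∀ y : L → ℚ, ∑ p, (Λ p y) ^ 2 = 6 * ∑ i, y i ^ 2 + (∑ i, y i) ^ 2) : False := by
  classical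
  have e : P ≃ L := Fintype.equivOfCardEq (hP.trans hL.symm)
  obtain ⟨Q, hQ⟩ := exists_six (ι := Option L) (by rw [Fintype.card_option, hL])
  have hinj : Function.Injective Q := by
    rw [injective_iff_map_eq_zero]
    intro x hx
    have h1 := hQ x
    rw [hx] at h1
    simp only [Pi.zero_apply] at h1
    have h2 : ∑ i, x i ^ 2 = 0 := by
      have h3 : ∑ _i : Option L, (0 : ℚ) ^ 2 = 0 := Finset.sum_eq_zero fun _ _ => by norm_num
      rw [h3] at h1
      linarith
    rw [Finset.sum_eq_zero_iff_of_nonneg fun i _ => sq_nonneg (x i)] at h2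
    funext i
    exact pow_eq_zero_iff (two_ne_zero) |>.1 (h2 i (Finset.mem_univ i))
  obtain ⟨x, hx1, hx2⟩ := elim Q hinj none (fun j => Option.elim j 0 fun j =>
    (Λ (e.symm j)).comp (LinearMap.funLeft ℚ ℚ (some : L → Option L)))
  have h1 := h (fun i => x (some i))
  have h2 := hQ x
  rw [Fintype.sum_option, Fintype.sum_option, hx2] at h2
  have h3 : ∑ p, (Λ p fun i => x (some i)) ^ 2 = ∑ j, (Q x (some j)) ^ 2 := by
    rw [← e.symm.sum_comp]
    refine Finset.sum_congr rfl fun j _ => ?_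
    rw [← hx1 (some j) (by simp)]
    rfl
  refine no_six (x none) (∑ i, x (some i)) ?_
  rw [h3] at h1
  linarith

end MP44257e
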