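import Pool.Agent.H.MP_44257e_co.UC.L1
import Pool.Agent.H.MP_44257e_co.UC.R4

/-!
# There is no projective plane of order 6

`d = 43`, `n = 6`: by `sum_dg` (`d + n = 49 = 7 * 7`) every point on a line has degree 7. The set
`P` of the points of positive degree has 43 elements (`sum_dg_all`: `43 * 7`). For `p ∈ P` let
`Λ p y = ∑ y_X` over the lines `X` through `p`. Then `∑_p (Λ p y)^2 = ∑_{X, Y} (X ∩ Y).card y_X y_Y
= 6 ∑ y_X^2 + (∑ y_X)^2`. `bruck_ryser_six` for `P` and `𝓛` as types.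
-/

set_option autoImplicit false

namespace MP44257e

private def L2_map {v : ℕ} {P : Finset (Fin v)} {𝓛 : Finset (Finset (Fin v))} (p : P) :
    (𝓛 → ℚ) →ₗ[ℚ] ℚ where
  toFun y := ∑ X : 𝓛, if p.1 ∈ X.1 then y X else 0
  map_add' y z := by
    rw [← Finset.sum_add_distrib]
    refine Finset.sum_congr rfl fun X _ => ?_
    by_cases hX : p.1 ∈ X.1
    · simp only [hX, if_true, Pi.add_apply]
    · simp only [hX, if_false, add_zero]
  map_smul' c y := by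
    rw [RingHom.id_apply, smul_eq_mul, Finset.mul_sum]
    refine Finset.sum_congr rfl fun X _ => ?_
    by_cases hX : p.1 ∈ X.1
    · simp only [hX, if_true, Pi.smul_apply, smul_eq_mul]
    · simp only [hX, if_false, mul_zero]

private theorem L2_count {v : ℕ} {P X Y : Finset (Fin v)} (hX : X ⊆ P) (c : ℚ) :
    ∑ p : P, (if p.1 ∈ X ∧ p.1 ∈ Y then c else 0) = ((X ∩ Y).card : ℚ) * c := by
  rw [Finset.sum_coe_sort P (fun p => if p ∈ X ∧ p ∈ Y then c else 0), ← Finset.sum_filter,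
    Finset.sum_const, nsmul_eq_mul]
  congr 3
  ext p
  simp only [Finset.mem_filter, Finset.mem_inter]
  exact ⟨fun h => h.2, fun h => ⟨hX h.1, h⟩⟩

private theorem L2_sum {v : ℕ} {P : Finset (Fin v)} {𝓛 : Finset (Finset (Fin v))}
    (hP : ∀ X ∈ 𝓛, X ⊆ P) (h7 : ∀ X ∈ 𝓛, X.card = 7)
    (h1 : ∀ X ∈ 𝓛, ∀ Y ∈ 𝓛, X ≠ Y → (X ∩ Y).card = 1) (y : 𝓛 → ℚ) :
    ∑ p : P, (L2_map (𝓛 := 𝓛) p y) ^ 2 = 6 * ∑ i, y i ^ 2 + (∑ i, y i) ^ 2 := by
  have e1 : ∀ p : P, (L2_map (𝓛 := 𝓛) p y) ^ 2 =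
      ∑ X : 𝓛, ∑ Y : 𝓛, (if p.1 ∈ X.1 ∧ p.1 ∈ Y.1 then y X * y Y else 0) := by
    intro p
    have e2 : L2_map (𝓛 := 𝓛) p y = ∑ X : 𝓛, if p.1 ∈ X.1 then y X else 0 := rfl
    rw [e2, sq, Finset.sum_mul_sum]
    refine Finset.sum_congr rfl fun X _ => Finset.sum_congr rfl fun Y _ => ?_
    by_cases hX : p.1 ∈ X.1
    · by_cases hY : p.1 ∈ Y.1
      · rw [if_pos hX, if_pos hY, if_pos ⟨hX, hY⟩]
      · rw [if_neg hY, if_neg (fun h : p.1 ∈ X.1 ∧ p.1 ∈ Y.1 => hY h.2), mul_zero]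
    · rw [if_neg hX, if_neg (fun h : p.1 ∈ X.1 ∧ p.1 ∈ Y.1 => hX h.1), zero_mul]
  have e3 : ∀ X Y : 𝓛, ∑ p : P, (if p.1 ∈ X.1 ∧ p.1 ∈ Y.1 then y X * y Y else 0) =
      (if X = Y then 6 * (y X * y Y) else 0) + y X * y Y := by
    intro X Y
    rw [L2_count (hP X.1 X.2)]
    by_cases hXY : X = Y
    · rw [if_pos hXY, ← hXY, Finset.inter_self, h7 X.1 X.2]
      push_cast
      ring
    · rw [if_neg hXY, h1 X.1 X.2 Y.1 Y.2 fun h => hXY (Subtype.ext h)]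
      push_cast
      ring
  calc ∑ p : P, (L2_map (𝓛 := 𝓛) p y) ^ 2
      = ∑ p : P, ∑ X : 𝓛, ∑ Y : 𝓛, (if p.1 ∈ X.1 ∧ p.1 ∈ Y.1 then y X * y Y else 0) :=
        Finset.sum_congr rfl fun p _ => e1 p
    _ = ∑ X : 𝓛, ∑ p : P, ∑ Y : 𝓛, (if p.1 ∈ X.1 ∧ p.1 ∈ Y.1 then y X * y Y else 0) :=
        Finset.sum_comm
    _ = ∑ X : 𝓛, ∑ Y : 𝓛, ∑ p : P, (if p.1 ∈ X.1 ∧ p.1 ∈ Y.1 then y X * y Y else 0) :=
        Finset.sum_congr rfl fun X _ => Finset.sum_comm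
    _ = ∑ X : 𝓛, ∑ Y : 𝓛, ((if X = Y then 6 * (y X * y Y) else 0) + y X * y Y) :=
        Finset.sum_congr rfl fun X _ => Finset.sum_congr rfl fun Y _ => e3 X Y
    _ = 6 * ∑ i, y i ^ 2 + (∑ i, y i) ^ 2 := by
        rw [sq (∑ i, y i), Finset.sum_mul_sum, Finset.mul_sum, ← Finset.sum_add_distrib]
        refine Finset.sum_congr rfl fun X _ => ?_
        rw [Finset.sum_add_distrib, Finset.sum_ite_eq, if_pos (Finset.mem_univ X)]
        ring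

theorem no_lin43 {v : ℕ} {𝓛 : Finset (Finset (Fin v))} (h : Lin 6 43 𝓛) : False := by
  classical
  obtain ⟨hc, h7, h1, hd⟩ := h
  have h : Lin 6 43 𝓛 := ⟨hc, h7, h1, hd⟩
  have hdeg : ∀ X ∈ 𝓛, ∀ q ∈ X, dg 𝓛 q = 7 := by
    intro X hX
    have e1 : ∑ q ∈ X, dg 𝓛 q = ∑ q ∈ X, 7 := by
      rw [sum_dg h hX, Finset.sum_const, h7 X hX, smul_eq_mul]
    exact (Finset.sum_eq_sum_iff_of_le fun q _ => hd q).1 e1
  obtain ⟨P, hP⟩ : ∃ P : Finset (Fin v), P = Finset.univ.filter fun q => 0 < dg 𝓛 q := ⟨_, rfl⟩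
  have hmP : ∀ q, q ∈ P ↔ 0 < dg 𝓛 q := by
    intro q
    rw [hP, Finset.mem_filter]
    exact ⟨fun h => h.2, fun h => ⟨Finset.mem_univ _, h⟩⟩
  have hXP : ∀ X ∈ 𝓛, X ⊆ P := by
    intro X hX q hq
    rw [hmP, hdeg X hX q hq]
    norm_num
  have hP7 : ∀ q ∈ P, dg 𝓛 q = 7 := by
    intro q hq
    rw [hmP] at hq
    unfold dg at hq
    obtain ⟨X, hX⟩ := Finset.card_pos.1 hq
    rw [Finset.mem_filter] at hX
    exact hdeg X hX.1 q hX.2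
  have hcard : P.card = 43 := by
    have e1 := sum_dg_all h
    have e2 : ∑ q ∈ P, dg 𝓛 q = ∑ q, dg 𝓛 q := by
      refine Finset.sum_subset (Finset.subset_univ _) fun q _ hq => ?_
      rw [hmP] at hq
      omega
    rw [← e2, Finset.sum_congr rfl hP7, Finset.sum_const, smul_eq_mul] at e1
    omega
  refine bruck_ryser_six (P := P) (L := 𝓛) ?_ ?_ (fun p => L2_map (𝓛 := 𝓛) p)
    fun y => L2_sum hXP h7 h1 y
  · rw [Fintype.card_coe, hcard]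
  · rw [Fintype.card_coe, hc]

end MP44257e
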