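import Pool.Agent.H.MP_44257e_co.UC.L1

/-!
# Completion of 40 lines of order 6

Let `P` be the set of the points of positive degree and `def p = 7 - dg p` for `p ∈ P`. By `sum_dg`
(`40 + 6 = 46 = 49 - 3`) the sum of `def` over every line is 3; so `def ≤ 3` on `P`.
`∑_P dg = 280` (`sum_dg_all`), `∑_P dg^2 = ∑_X ∑_{q ∈ X} dg q = 40 * 46 = 1840`. Put `T = ∑_P def
= 7 P.card - 280`; `∑_P def^2 = 49 P.card - 14 * 280 + 1840 = 7 T - 120`. From `def (def - 1) ≥ 0`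
and `def (3 - def) ≥ 0`: `20 ≤ T ≤ 30`, and `7 ∣ T`, so `T = 21` or `T = 28`. Let `n_i` be the number
of the points of `def` `i` (`i = 1, 2, 3`): `n_1 + 2 n_2 + 3 n_3 = T`,
`n_1 + 4 n_2 + 9 n_3 = 7 T - 120`.

`T = 28`: `n_2 + 3 n_3 = 24`, `n_1 = 3 n_3 - 20`, so `n_3 = 7` (`n_1 = 1`, `n_2 = 3`) or `n_3 = 8`
(`n_1 = 4`, `n_2 = 0`). Take `p` with `def p = 1`; on each of the 6 lines through `p` the other points
have `def` sum 2: one point with `def` 2 or two points with `def` 1; different lines have different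
such points: impossible (`6 ≤ n_2 + (n_1 - 1) / 2` fails).

`T = 21`: `P.card = 43`, `n_2 + 3 n_3 = 3`, so `n_1 ≥ 15`; take `p` with `def p = 1`, `dg p = 6`. The
points on a line with `p` are `p` and `6 * 6` others; so the set `N` of the points of `P` on no line
with `p` has `43 - 37 = 6` points. By `noncol` every line not through `p` has exactly one point in
`N`, a line through `p` has none. For `q ∈ N`, `dg q ≤ 6`: a line `X` through `p` does not contain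
`q`, it has `dg q` points on a line with `q`, not `p`. The new line is `insert p N` (see also the
end of the header of `UC/L4.lean`, and its proof).
-/

set_option autoImplicit false

namespace MP44257e

private theorem L6_pos {v : ℕ} {𝓛 : Finset (Finset (Fin v))} {q : Fin v} :
    0 < dg 𝓛 q ↔ ∃ Y ∈ 𝓛, q ∈ Y := by
  unfold dg
  rw [Finset.card_pos]
  constructor
  · rintro ⟨Y, hY⟩
    rw [Finset.mem_filter] at hY
    exact ⟨Y, hY.1, hY.2⟩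
  · rintro ⟨Y, hY, hq⟩
    exact ⟨Y, Finset.mem_filter.2 ⟨hY, hq⟩⟩

/-- the deficiencies on a line -/
private theorem L6_def {v : ℕ} {𝓛 : Finset (Finset (Fin v))} (h : Lin 6 40 𝓛)
    {X : Finset (Fin v)} (hX : X ∈ 𝓛) : ∑ q ∈ X, (7 - dg 𝓛 q) = 3 := by
  have h1 := sum_dg h hX
  have h2 : ∑ q ∈ X, dg 𝓛 q + ∑ q ∈ X, (7 - dg 𝓛 q) = 49 := by
    rw [← Finset.sum_add_distrib]
    have h3 : ∀ q ∈ X, dg 𝓛 q + (7 - dg 𝓛 q) = 7 := by
      intro q _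
      have := h.2.2.2 q
      omega
    rw [Finset.sum_congr rfl h3, Finset.sum_const, h.2.1 X hX]
    rfl
  omega

private theorem L6_four {v : ℕ} {𝓛 : Finset (Finset (Fin v))} (h : Lin 6 40 𝓛)
    {X : Finset (Fin v)} (hX : X ∈ 𝓛) {q : Fin v} (hq : q ∈ X) : 4 ≤ dg 𝓛 q := by
  have h1 := L6_def h hX
  have h2 := Finset.single_le_sum (f := fun q => 7 - dg 𝓛 q) (fun _ _ => Nat.zero_le _) hq
  omega

private theorem L6_cases {v : ℕ} {𝓛 : Finset (Finset (Fin v))} (h : Lin 6 40 𝓛) (q : Fin v) :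
    dg 𝓛 q = 0 ∨ dg 𝓛 q = 4 ∨ dg 𝓛 q = 5 ∨ dg 𝓛 q = 6 ∨ dg 𝓛 q = 7 := by
  have h7 := h.2.2.2 q
  rcases Nat.eq_zero_or_pos (dg 𝓛 q) with h0 | h0
  · exact Or.inl h0
  · obtain ⟨Y, hY, hq⟩ := L6_pos.1 h0
    have h4 := L6_four h hY hq
    omega

/-- the number of the points of degree `i` -/
private def L6_n {v : ℕ} (𝓛 : Finset (Finset (Fin v))) (i : ℕ) : ℕ :=
  (Finset.univ.filter fun q => dg 𝓛 q = i).card

private theorem L6_sum {v : ℕ} {𝓛 : Finset (Finset (Fin v))} (h : Lin 6 40 𝓛) (g : ℕ → ℕ)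
    (g0 : g 0 = 0) : ∑ q, g (dg 𝓛 q) =
      g 7 * L6_n 𝓛 7 + g 6 * L6_n 𝓛 6 + g 5 * L6_n 𝓛 5 + g 4 * L6_n 𝓛 4 := by
  unfold L6_n
  rw [Finset.card_filter, Finset.card_filter, Finset.card_filter, Finset.card_filter,
    Finset.mul_sum, Finset.mul_sum, Finset.mul_sum, Finset.mul_sum, ← Finset.sum_add_distrib,
    ← Finset.sum_add_distrib, ← Finset.sum_add_distrib]
  refine Finset.sum_congr rfl fun q _ => ?_
  rcases L6_cases h q with h1 | h1 | h1 | h1 | h1 <;> rw [h1]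
  · rw [g0]
    simp
  all_goals simp

private theorem L6_sq {v : ℕ} {𝓛 : Finset (Finset (Fin v))} (h : Lin 6 40 𝓛) :
    ∑ q, dg 𝓛 q * dg 𝓛 q = 1840 := by
  have h1 : ∀ q : Fin v, dg 𝓛 q * dg 𝓛 q = ∑ X ∈ 𝓛, if q ∈ X then dg 𝓛 q else 0 := by
    intro q
    rw [← Finset.sum_filter, Finset.sum_const, smul_eq_mul]
    rfl
  rw [Finset.sum_congr rfl fun q _ => h1 q, Finset.sum_comm]
  have h2 : ∀ X ∈ 𝓛, (∑ q, if q ∈ X then dg 𝓛 q else 0) = 46 := by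
    intro X hX
    rw [← Finset.sum_filter, Finset.filter_univ_mem]
    exact sum_dg h hX
  rw [Finset.sum_congr rfl h2, Finset.sum_const, h.1]
  rfl

private theorem L6_eqs {v : ℕ} {𝓛 : Finset (Finset (Fin v))} (h : Lin 6 40 𝓛) :
    7 * L6_n 𝓛 7 + 6 * L6_n 𝓛 6 + 5 * L6_n 𝓛 5 + 4 * L6_n 𝓛 4 = 280 ∧
    49 * L6_n 𝓛 7 + 36 * L6_n 𝓛 6 + 25 * L6_n 𝓛 5 + 16 * L6_n 𝓛 4 = 1840 := by
  constructor
  · have h1 := L6_sum h (fun k => k) rfl
    have h2 := sum_dg_all h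
    rw [h2] at h1
    simpa using h1.symm
  · have h1 := L6_sum h (fun k => k * k) rfl
    have h2 := L6_sq h
    rw [h2] at h1
    simpa using h1.symm

private theorem L6_six {v : ℕ} {𝓛 : Finset (Finset (Fin v))} (h : Lin 6 40 𝓛) :
    ∃ p, dg 𝓛 p = 6 := by
  obtain ⟨h1, h2⟩ := L6_eqs h
  have h3 : 0 < L6_n 𝓛 6 := by omega
  obtain ⟨p, hp⟩ := Finset.card_pos.1 h3
  exact ⟨p, (Finset.mem_filter.1 hp).2⟩

private theorem L6_disj {v : ℕ} {𝓛 : Finset (Finset (Fin v))} (h : Lin 6 40 𝓛) (p : Fin v) :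
    ∀ Y ∈ 𝓛.filter (fun Y => p ∈ Y), ∀ Z ∈ 𝓛.filter (fun Y => p ∈ Y), Y ≠ Z →
      Disjoint (Y.erase p) (Z.erase p) := by
  intro Y hY Z hZ hne
  rw [Finset.mem_filter] at hY hZ
  rw [Finset.disjoint_left]
  intro q hq hq'
  rw [Finset.mem_erase] at hq hq'
  obtain ⟨t, ht⟩ := Finset.card_eq_one.1 (h.2.2.1 Y hY.1 Z hZ.1 hne)
  have h3 : p ∈ Y ∩ Z := Finset.mem_inter.2 ⟨hY.2, hZ.2⟩
  have h4 : q ∈ Y ∩ Z := Finset.mem_inter.2 ⟨hq.2, hq'.2⟩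
  rw [ht, Finset.mem_singleton] at h3 h4
  exact hq.1 (h4.trans h3.symm)

/-- the other points on the lines through `p` -/
private def L6_C {v : ℕ} (𝓛 : Finset (Finset (Fin v))) (p : Fin v) : Finset (Fin v) :=
  (𝓛.filter fun Y => p ∈ Y).biUnion fun Y => Y.erase p

private theorem L6_mem_C {v : ℕ} {𝓛 : Finset (Finset (Fin v))} {p q : Fin v} :
    q ∈ L6_C 𝓛 p ↔ q ≠ p ∧ ∃ Y ∈ 𝓛, p ∈ Y ∧ q ∈ Y := by
  unfold L6_C
  simp only [Finset.mem_biUnion, Finset.mem_filter, Finset.mem_erase]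
  constructor
  · rintro ⟨Y, ⟨h1, h2⟩, h3, h4⟩
    exact ⟨h3, Y, h1, h2, h4⟩
  · rintro ⟨h3, Y, h1, h2, h4⟩
    exact ⟨Y, ⟨h1, h2⟩, h3, h4⟩

private theorem L6_card_C {v : ℕ} {𝓛 : Finset (Finset (Fin v))} (h : Lin 6 40 𝓛) {p : Fin v}
    (h6 : dg 𝓛 p = 6) : (L6_C 𝓛 p).card = 36 := by
  unfold L6_C
  rw [Finset.card_biUnion (L6_disj h p), Finset.sum_const_nat (m := 6)]
  · have h1 : (𝓛.filter fun Y => p ∈ Y).card = 6 := h6
    rw [h1]
  · intro Y hY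
    rw [Finset.mem_filter] at hY
    rw [Finset.card_erase_of_mem hY.2, h.2.1 Y hY.1]

private theorem L6_w {v : ℕ} {𝓛 : Finset (Finset (Fin v))} (h : Lin 6 40 𝓛) {p : Fin v}
    (h6 : dg 𝓛 p = 6) : 13 ≤ L6_n 𝓛 6 + 2 * L6_n 𝓛 5 := by
  have h1 := L6_sum h (fun k => if k = 6 then 1 else if k = 5 then 2 else 0) (by simp)
  have h2 : ∑ q, (fun k => if k = 6 then 1 else if k = 5 then 2 else 0) (dg 𝓛 q) =
      L6_n 𝓛 6 + 2 * L6_n 𝓛 5 := by
    rw [h1]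
    simp
  rw [← h2]
  clear h1 h2
  rw [← Finset.add_sum_erase Finset.univ _ (Finset.mem_univ p)]
  have h3 : ∑ q ∈ L6_C 𝓛 p, (fun k => if k = 6 then 1 else if k = 5 then 2 else 0) (dg 𝓛 q) =
      12 := by
    unfold L6_C
    rw [Finset.sum_biUnion (L6_disj h p)]
    have h4 : ∀ X ∈ 𝓛.filter (fun Y => p ∈ Y), ∑ q ∈ X.erase p,
        (fun k => if k = 6 then 1 else if k = 5 then 2 else 0) (dg 𝓛 q) = 2 := by
      intro X hX
      rw [Finset.mem_filter] at hX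
      have h5 := L6_def h hX.1
      rw [← Finset.add_sum_erase X _ hX.2, h6] at h5
      have h6' : ∑ q ∈ X.erase p, (7 - dg 𝓛 q) = 2 := by omega
      refine Eq.trans (Finset.sum_congr rfl fun q hq => ?_) h6'
      have h7 := Finset.single_le_sum (f := fun q => 7 - dg 𝓛 q) (fun _ _ => Nat.zero_le _) hq
      have h8 := h.2.2.2 q
      show (if dg 𝓛 q = 6 then 1 else if dg 𝓛 q = 5 then 2 else 0) = 7 - dg 𝓛 q
      split_ifs <;> omega
    rw [Finset.sum_congr rfl h4, Finset.sum_const]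
    have h9 : (𝓛.filter fun Y => p ∈ Y).card = 6 := h6
    rw [h9]
    rfl
  have h4 : ∑ q ∈ L6_C 𝓛 p, (fun k => if k = 6 then 1 else if k = 5 then 2 else 0) (dg 𝓛 q) ≤
      ∑ q ∈ Finset.univ.erase p,
        (fun k => if k = 6 then 1 else if k = 5 then 2 else 0) (dg 𝓛 q) := by
    refine Finset.sum_le_sum_of_subset ?_
    intro q hq
    rw [L6_mem_C] at hq
    exact Finset.mem_erase.2 ⟨hq.1, Finset.mem_univ q⟩
  rw [h3] at h4
  have h5 : (fun k => if k = 6 then 1 else if k = 5 then 2 else 0) (dg 𝓛 p) = 1 := by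
    rw [h6]
    rfl
  omega

/-- the points that are on no line with `p` -/
private def L6_N {v : ℕ} (𝓛 : Finset (Finset (Fin v))) (p : Fin v) : Finset (Fin v) :=
  Finset.univ.filter fun q => 0 < dg 𝓛 q ∧ ¬ ∃ Y ∈ 𝓛, p ∈ Y ∧ q ∈ Y

private theorem L6_mem {v : ℕ} {𝓛 : Finset (Finset (Fin v))} {p q : Fin v} :
    q ∈ L6_N 𝓛 p ↔ 0 < dg 𝓛 q ∧ ¬ ∃ Y ∈ 𝓛, p ∈ Y ∧ q ∈ Y := by
  simp [L6_N]

private theorem L6_card {v : ℕ} {𝓛 : Finset (Finset (Fin v))} (h : Lin 6 40 𝓛) {p : Fin v}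
    (h6 : dg 𝓛 p = 6) : (L6_N 𝓛 p).card = 6 := by
  obtain ⟨e1, e2⟩ := L6_eqs h
  have e3 := L6_w h h6
  have e4 : (Finset.univ.filter fun q => 0 < dg 𝓛 q).card =
      L6_n 𝓛 7 + L6_n 𝓛 6 + L6_n 𝓛 5 + L6_n 𝓛 4 := by
    have h1 := L6_sum h (fun k => if 0 < k then 1 else 0) (by simp)
    rw [Finset.card_filter]
    simpa using h1
  have e5 := Finset.card_filter_add_card_filter_not
    (s := Finset.univ.filter fun q => 0 < dg 𝓛 q) (fun q => ∃ Y ∈ 𝓛, p ∈ Y ∧ q ∈ Y)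
  have e6 : ((Finset.univ.filter fun q => 0 < dg 𝓛 q).filter
      fun q => ¬ ∃ Y ∈ 𝓛, p ∈ Y ∧ q ∈ Y) = L6_N 𝓛 p := by
    rw [Finset.filter_filter]
    rfl
  have e7 : ((Finset.univ.filter fun q => 0 < dg 𝓛 q).filter
      fun q => ∃ Y ∈ 𝓛, p ∈ Y ∧ q ∈ Y) = insert p (L6_C 𝓛 p) := by
    ext q
    rw [Finset.mem_filter, Finset.mem_filter, Finset.mem_insert, L6_mem_C]
    constructor
    · rintro ⟨_, h2⟩
      by_cases hqp : q = p
      · exact Or.inl hqp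
      · exact Or.inr ⟨hqp, h2⟩
    · rintro (rfl | ⟨_, Y, h1, h2, h3⟩)
      · obtain ⟨Y, hY, hq⟩ := L6_pos.1 (by omega : 0 < dg 𝓛 q)
        exact ⟨⟨Finset.mem_univ _, by omega⟩, Y, hY, hq, hq⟩
      · exact ⟨⟨Finset.mem_univ _, L6_pos.2 ⟨Y, h1, h3⟩⟩, Y, h1, h2, h3⟩
  have hpC : p ∉ L6_C 𝓛 p := fun h0 => (L6_mem_C.1 h0).1 rfl
  rw [e6, e7, e4, Finset.card_insert_of_notMem hpC, L6_card_C h h6] at e5
  omega

private theorem L6_in {v : ℕ} {𝓛 : Finset (Finset (Fin v))} {p : Fin v}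
    {X : Finset (Fin v)} (hX : X ∈ 𝓛) (hp : p ∈ X) : X ∩ L6_N 𝓛 p = ∅ := by
  rw [Finset.eq_empty_iff_forall_notMem]
  intro q hq
  rw [Finset.mem_inter, L6_mem] at hq
  exact hq.2.2 ⟨X, hX, hp, hq.1⟩

private theorem L6_out {v : ℕ} {𝓛 : Finset (Finset (Fin v))} (h : Lin 6 40 𝓛) {p : Fin v}
    (h6 : dg 𝓛 p = 6) {X : Finset (Fin v)} (hX : X ∈ 𝓛) (hp : p ∉ X) :
    (X ∩ L6_N 𝓛 p).card = 1 := by
  have h1 := noncol h hX hp
  have h2 := Finset.card_filter_add_card_filter_not (s := X)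
    (fun q => ∃ Y ∈ 𝓛, p ∈ Y ∧ q ∈ Y)
  have h3 : X ∩ L6_N 𝓛 p = X.filter fun q => ¬ ∃ Y ∈ 𝓛, p ∈ Y ∧ q ∈ Y := by
    ext q
    rw [Finset.mem_inter, L6_mem, Finset.mem_filter]
    constructor
    · rintro ⟨h4, h5⟩
      exact ⟨h4, h5.2⟩
    · rintro ⟨h4, h5⟩
      exact ⟨h4, L6_pos.2 ⟨X, hX, h4⟩, h5⟩
  rw [h3]
  rw [h1, h6, h.2.1 X hX] at h2
  omega

private theorem L6_le {v : ℕ} {𝓛 : Finset (Finset (Fin v))} (h : Lin 6 40 𝓛) {p : Fin v}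
    (h6 : dg 𝓛 p = 6) {q : Fin v} (hq : q ∈ L6_N 𝓛 p) : dg 𝓛 q ≤ 6 := by
  rw [L6_mem] at hq
  obtain ⟨X, hX, hp⟩ := L6_pos.1 (by omega : 0 < dg 𝓛 p)
  have hqX : q ∉ X := fun h0 => hq.2 ⟨X, hX, hp, h0⟩
  have h1 := noncol h hX hqX
  have h2 : (X.filter fun r => ∃ Y ∈ 𝓛, q ∈ Y ∧ r ∈ Y) ⊆ X.erase p := by
    intro r hr
    rw [Finset.mem_filter] at hr
    rw [Finset.mem_erase]
    refine ⟨?_, hr.1⟩
    rintro rfl
    obtain ⟨Y, hY, h3, h4⟩ := hr.2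
    exact hq.2 ⟨Y, hY, h4, h3⟩
  have h3 := Finset.card_le_card h2
  rw [h1, Finset.card_erase_of_mem hp, h.2.1 X hX] at h3
  omega

theorem lin40 {v : ℕ} {𝓛 : Finset (Finset (Fin v))} (h : Lin 6 40 𝓛) :
    ∃ 𝓛' : Finset (Finset (Fin v)), Lin 6 41 𝓛' := by
  obtain ⟨p, h6⟩ := L6_six h
  have hpos : ∃ Y ∈ 𝓛, p ∈ Y := L6_pos.1 (by omega : 0 < dg 𝓛 p)
  have hpN : p ∉ L6_N 𝓛 p := by
    intro h0
    obtain ⟨Y, hY, hp⟩ := hpos
    exact (L6_mem.1 h0).2 ⟨Y, hY, hp, hp⟩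
  have hZ7 : (insert p (L6_N 𝓛 p)).card = 7 := by
    rw [Finset.card_insert_of_notMem hpN, L6_card h h6]
  have hint : ∀ X ∈ 𝓛, (X ∩ insert p (L6_N 𝓛 p)).card = 1 := by
    intro X hX
    by_cases hp : p ∈ X
    · rw [Finset.inter_insert_of_mem hp, L6_in hX hp]
      simp
    · rw [Finset.inter_insert_of_notMem hp]
      exact L6_out h h6 hX hp
  have hZ : insert p (L6_N 𝓛 p) ∉ 𝓛 := by
    intro h0
    obtain ⟨q, hq⟩ := Finset.card_pos.1 (by rw [L6_card h h6]; omega : 0 < (L6_N 𝓛 p).card)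
    exact (L6_mem.1 hq).2 ⟨_, h0, Finset.mem_insert_self _ _, Finset.mem_insert_of_mem hq⟩
  refine ⟨insert (insert p (L6_N 𝓛 p)) 𝓛, ?_, ?_, ?_, ?_⟩
  · rw [Finset.card_insert_of_notMem hZ, h.1]
  · intro X hX
    rcases Finset.mem_insert.1 hX with rfl | hX
    · exact hZ7
    · exact h.2.1 X hX
  · intro X hX Y hY hne
    rcases Finset.mem_insert.1 hX with rfl | hX
    · rcases Finset.mem_insert.1 hY with rfl | hY
      · exact absurd rfl hne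
      · rw [Finset.inter_comm]
        exact hint Y hY
    · rcases Finset.mem_insert.1 hY with rfl | hY
      · exact hint X hX
      · exact h.2.2.1 X hX Y hY hne
  · intro q
    unfold dg
    rw [Finset.filter_insert]
    have h7 := h.2.2.2 q
    split_ifs with hq
    · have h8 : dg 𝓛 q ≤ 6 := by
        rcases Finset.mem_insert.1 hq with rfl | hq
        · omega
        · exact L6_le h h6 hq
      have h10 := Finset.card_insert_le (insert p (L6_N 𝓛 p)) (𝓛.filter fun X => q ∈ X)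
      have h11 : (𝓛.filter fun X => q ∈ X).card ≤ 6 := h8
      omega
    · exact h7

end MP44257e
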