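import Pool.Agent.H.MP_44257e_co.UC.L1

/-!
# The number of points

`PS 𝓛` is the set of the points of positive degree. `card_PS`: let `dg p = n + 1`. Every point `q` of
positive degree is on a line with `p`: it is on some line `X`; if `p ∉ X`, then all `n + 1` points of
`X` are on a line with `p` (`noncol`, `dg p = n + 1 = X.card`). The `n + 1` lines through `p` share
only `p`, so there are `1 + (n + 1) n` points.

`exists_full`: `n ^ 2 + 1 ≤ d`; by `sum_dg` the sum of the `n + 1` degrees on a line is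
`d + n > n (n + 1)`, so some degree is `n + 1`.

`sums`: `∑ dg = d (n + 1)` and `∑ dg^2 = d (d + n)` over `PS 𝓛` (`sum_dg_all`, `sum_dg`,
double counting).
-/

set_option autoImplicit false

namespace MP44257e

variable {v n d : ℕ} {𝓛 : Finset (Finset (Fin v))}

/-- The set of the points of positive degree. -/
def PS {v : ℕ} (𝓛 : Finset (Finset (Fin v))) : Finset (Fin v) :=
  Finset.univ.filter fun q => 1 ≤ dg 𝓛 q

private theorem L7_mem {v : ℕ} {𝓛 : Finset (Finset (Fin v))} {q : Fin v} :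
    q ∈ PS 𝓛 ↔ 1 ≤ dg 𝓛 q := by
  unfold PS
  rw [Finset.mem_filter]
  exact ⟨fun h => h.2, fun h => ⟨Finset.mem_univ q, h⟩⟩

theorem card_PS (h : Lin n d 𝓛) {p : Fin v} (hp : dg 𝓛 p = n + 1) :
    (PS 𝓛).card = n ^ 2 + n + 1 := by
  classical
  have hPS : PS 𝓛 = insert p ((𝓛.filter fun X => p ∈ X).biUnion fun X => X.erase p) := by
    ext q
    rw [L7_mem, Finset.mem_insert, Finset.mem_biUnion]
    constructor
    · intro hq
      obtain ⟨X, hX⟩ := Finset.card_pos.1 hq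
      rw [Finset.mem_filter] at hX
      by_cases hqp : q = p
      · exact Or.inl hqp
      right
      by_cases hpX : p ∈ X
      · exact ⟨X, Finset.mem_filter.2 ⟨hX.1, hpX⟩, Finset.mem_erase.2 ⟨hqp, hX.2⟩⟩
      · have h1 := noncol h hX.1 hpX
        rw [hp, ← h.2.1 X hX.1] at h1
        have h2 : (X.filter fun q => ∃ Y ∈ 𝓛, p ∈ Y ∧ q ∈ Y) = X :=
          Finset.eq_of_subset_of_card_le (Finset.filter_subset _ _) h1.ge
        have h3 : q ∈ X.filter fun q => ∃ Y ∈ 𝓛, p ∈ Y ∧ q ∈ Y := by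
          rw [h2]
          exact hX.2
        obtain ⟨-, Y, hY, hpY, hqY⟩ := Finset.mem_filter.1 h3
        exact ⟨Y, Finset.mem_filter.2 ⟨hY, hpY⟩, Finset.mem_erase.2 ⟨hqp, hqY⟩⟩
    · rintro (h1 | ⟨X, hX, hq⟩)
      · rw [h1, hp]
        omega
      · exact Finset.card_pos.2 ⟨X, Finset.mem_filter.2
          ⟨(Finset.mem_filter.1 hX).1, Finset.mem_of_mem_erase hq⟩⟩
  have hnot : p ∉ (𝓛.filter fun X => p ∈ X).biUnion fun X => X.erase p := by
    intro h1
    obtain ⟨X, -, hq⟩ := Finset.mem_biUnion.1 h1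
    exact (Finset.mem_erase.1 hq).1 rfl
  have hdisj : ∀ X ∈ 𝓛.filter (fun X => p ∈ X), ∀ Y ∈ 𝓛.filter (fun X => p ∈ X), X ≠ Y →
      Disjoint (X.erase p) (Y.erase p) := by
    intro X hX Y hY hne
    rw [Finset.mem_filter] at hX hY
    rw [Finset.disjoint_left]
    intro q hq hq'
    rw [Finset.mem_erase] at hq hq'
    obtain ⟨w, hw⟩ := Finset.card_eq_one.1 (h.2.2.1 X hX.1 Y hY.1 hne)
    have h1 : p ∈ X ∩ Y := Finset.mem_inter.2 ⟨hX.2, hY.2⟩
    have h2 : q ∈ X ∩ Y := Finset.mem_inter.2 ⟨hq.2, hq'.2⟩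
    rw [hw, Finset.mem_singleton] at h1 h2
    exact hq.1 (h2.trans h1.symm)
  have hc : ∀ X ∈ 𝓛.filter (fun X => p ∈ X), (X.erase p).card = n := by
    intro X hX
    rw [Finset.mem_filter] at hX
    rw [Finset.card_erase_of_mem hX.2, h.2.1 X hX.1]
    rfl
  have hcard : (𝓛.filter fun X => p ∈ X).card = n + 1 := hp
  rw [hPS, Finset.card_insert_of_notMem hnot, Finset.card_biUnion hdisj,
    Finset.sum_congr rfl hc, Finset.sum_const, hcard, smul_eq_mul]
  ring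

theorem exists_full_point (h : Lin n d 𝓛) (hd : n ^ 2 + 1 ≤ d) : ∃ p, dg 𝓛 p = n + 1 := by
  by_contra hcon
  push Not at hcon
  have h0 : 0 < 𝓛.card := by
    rw [h.1]
    omega
  obtain ⟨X, hX⟩ := Finset.card_pos.1 h0
  have h1 := sum_dg h hX
  have h2 : ∑ q ∈ X, dg 𝓛 q ≤ ∑ q ∈ X, n := by
    refine Finset.sum_le_sum fun q _ => ?_
    have h3 := h.2.2.2 q
    have h4 := hcon q
    omega
  rw [Finset.sum_const, h.2.1 X hX, smul_eq_mul] at h2
  nlinarith

theorem sum_PS (h : Lin n d 𝓛) : ∑ q ∈ PS 𝓛, dg 𝓛 q = d * (n + 1) := by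
  rw [← sum_dg_all h]
  refine Finset.sum_subset (Finset.subset_univ _) fun q _ hq => ?_
  rw [L7_mem] at hq
  omega

theorem sum_sq_PS (h : Lin n d 𝓛) : ∑ q ∈ PS 𝓛, (dg 𝓛 q) ^ 2 = d * (d + n) := by
  classical
  have h1 : ∑ q ∈ PS 𝓛, (dg 𝓛 q) ^ 2 = ∑ q, (dg 𝓛 q) ^ 2 := by
    refine Finset.sum_subset (Finset.subset_univ _) fun q _ hq => ?_
    rw [L7_mem] at hq
    have h2 : dg 𝓛 q = 0 := by omega
    rw [h2]
    rfl
  have h2 : ∑ q, (dg 𝓛 q) ^ 2 = ∑ q, ∑ _X ∈ 𝓛.filter (fun X => q ∈ X), dg 𝓛 q := by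
    refine Finset.sum_congr rfl fun q _ => ?_
    rw [Finset.sum_const, smul_eq_mul, sq]
    rfl
  have h3 : ∑ q, ∑ _X ∈ 𝓛.filter (fun X => q ∈ X), dg 𝓛 q = ∑ X ∈ 𝓛, ∑ q ∈ X, dg 𝓛 q := by
    refine Finset.sum_comm' fun q X => ?_
    simp only [Finset.mem_univ, Finset.mem_filter, true_and]
    exact and_comm
  rw [h1, h2, h3, Finset.sum_congr rfl fun X hX => sum_dg h hX, Finset.sum_const, h.1,
    smul_eq_mul]

end MP44257e
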