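import Mathlib

/-!
# `6 a^2 = 1 + w^2` has no rational solution

Clear denominators: integers `6 A^2 = C^2 + B^2` with `C ≠ 0`. Modulo 3: `3 ∣ B` and `3 ∣ C` (squares
are 0, 1), then `9 ∣ 6 A^2`, so `3 ∣ A`; divide by 3: infinite descent (e.g. strong induction on
`C.natAbs`).
-/

set_option autoImplicit false

namespace MP44257e

private theorem R1_mod (C B : ℤ) (h : (3 : ℤ) ∣ C ^ 2 + B ^ 2) : (3 : ℤ) ∣ C ∧ (3 : ℤ) ∣ B := by
  have hC : C % 3 = 0 ∨ C % 3 = 1 ∨ C % 3 = 2 := by omega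
  have hB : B % 3 = 0 ∨ B % 3 = 1 ∨ B % 3 = 2 := by omega
  have h1 : (C ^ 2 + B ^ 2) % 3 = 0 := Int.emod_eq_zero_of_dvd h
  have h2 : (C ^ 2 + B ^ 2) % 3 = ((C % 3) ^ 2 + (B % 3) ^ 2) % 3 := by
    rw [Int.add_emod, pow_two, pow_two, Int.mul_emod, Int.mul_emod B B, pow_two, pow_two]
    rw [Int.add_emod ((C % 3) * (C % 3))]
  rw [h2] at h1
  rcases hC with hC | hC | hC <;> rcases hB with hB | hB | hB <;> rw [hC, hB] at h1 <;>
    first
      | exact ⟨Int.dvd_of_emod_eq_zero hC, Int.dvd_of_emod_eq_zero hB⟩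
      | (exfalso; revert h1; decide)

private theorem R1_int (n : ℕ) : ∀ A B C : ℤ, C.natAbs = n → C ≠ 0 →
    6 * A ^ 2 ≠ C ^ 2 + B ^ 2 := by
  induction n using Nat.strong_induction_on with
  | _ n ih =>
    intro A B C hn hC h
    obtain ⟨⟨c, hc⟩, b, hb⟩ := R1_mod C B ⟨2 * A ^ 2, by rw [← h]; ring⟩
    have h1 : 2 * A ^ 2 = 3 * (c ^ 2 + b ^ 2) := by
      rw [hc, hb] at h
      linarith
    have h2 : (3 : ℤ) ∣ A := by
      have h3 : (3 : ℤ) ∣ 2 * A ^ 2 := ⟨_, h1⟩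
      have h4 : (3 : ℤ) ∣ A ^ 2 := by omega
      exact Int.prime_three.dvd_of_dvd_pow h4
    obtain ⟨a, ha⟩ := h2
    have h3 : 6 * a ^ 2 = c ^ 2 + b ^ 2 := by
      rw [ha] at h1
      linarith
    have hc0 : c ≠ 0 := by
      rintro rfl
      exact hC (by rw [hc]; ring)
    exact ih c.natAbs (by omega) a b c rfl hc0 h3

theorem no_six (a w : ℚ) : 6 * a ^ 2 ≠ 1 + w ^ 2 := by
  intro h
  have ha : (a.den : ℚ) ≠ 0 := by exact_mod_cast a.den_nz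
  have hw : (w.den : ℚ) ≠ 0 := by exact_mod_cast w.den_nz
  have ha1 : a * a.den = a.num := Rat.mul_den_eq_num a
  have hw1 : w * w.den = w.num := Rat.mul_den_eq_num w
  have h1 : (6 : ℚ) * ((a.num : ℚ) * w.den) ^ 2 =
      ((a.den : ℚ) * w.den) ^ 2 + ((w.num : ℚ) * a.den) ^ 2 := by
    rw [← ha1, ← hw1]
    have e : (6 : ℚ) * (a * a.den * w.den) ^ 2 = 6 * a ^ 2 * (a.den * w.den) ^ 2 := by ring
    rw [e, h]
    ring
  have h2 : (6 : ℤ) * (a.num * w.den) ^ 2 =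
      ((a.den : ℤ) * w.den) ^ 2 + (w.num * a.den) ^ 2 := by exact_mod_cast h1
  refine R1_int _ (a.num * w.den) (w.num * a.den) ((a.den : ℤ) * w.den) rfl ?_ h2
  exact mul_ne_zero (by exact_mod_cast a.den_nz) (by exact_mod_cast w.den_nz)

end MP44257e
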